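import Pool.Agent.Work.MP_ac85ec_co.Count

/-!
# Level sizes
-/

namespace MP_ac85ec_co

open Finset

variable {n k : ℕ}

/-- number of elements at level `m` (levels numbered from `0`) -/
def cnt (L : Fin n → Fin k) (m : ℕ) : ℕ :=
  ((univ : Finset (Fin n)).filter (fun x => (L x : ℕ) = m)).card

lemma card_W (L : Fin n → Fin k) : (W L).card = ∑ j ∈ range k, cnt L j * cnt L (j + 1) := by
  classical
  have h : ∀ pq ∈ W L, (L pq.1 : ℕ) ∈ range k := fun pq _ => Finset.mem_range.mpr (L pq.1).isLt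
  rw [Finset.card_eq_sum_card_fiberwise h]
  apply Finset.sum_congr rfl
  intro j hj
  unfold cnt
  rw [← Finset.card_product]
  congr 1
  ext ⟨p, q⟩
  simp only [W, mem_filter, mem_univ, true_and, mem_product]
  constructor
  · rintro ⟨h1, h2⟩
    exact ⟨h2, by omega⟩
  · rintro ⟨h1, h2⟩
    exact ⟨by omega, h1⟩

lemma sum_cnt (L : Fin n → Fin k) : ∑ j ∈ range k, cnt L j = n := by
  classical
  have h : ∀ x ∈ (univ : Finset (Fin n)), (L x : ℕ) ∈ range k :=
    fun x _ => Finset.mem_range.mpr (L x).isLt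
  have := Finset.card_eq_sum_card_fiberwise h
  rw [Finset.card_univ, Fintype.card_fin] at this
  exact this.symm

lemma cnt_pos {L : Fin n → Fin k} (hL : Function.Surjective L) {j : ℕ} (hj : j < k) :
    1 ≤ cnt L j := by
  classical
  obtain ⟨x, hx⟩ := hL ⟨j, hj⟩
  apply Finset.card_pos.mpr
  exact ⟨x, by simp [hx]⟩

lemma cnt_eq_zero (L : Fin n → Fin k) {j : ℕ} (hj : k ≤ j) : cnt L j = 0 := by
  classical
  unfold cnt
  rw [Finset.card_eq_zero, Finset.filter_eq_empty_iff]
  intro x _
  have := (L x).isLt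
  omega

lemma surjective_of_cnt {L : Fin n → Fin k} (h : ∀ j, j < k → 1 ≤ cnt L j) :
    Function.Surjective L := by
  classical
  intro j
  have := h j j.isLt
  obtain ⟨x, hx⟩ := Finset.card_pos.mp this
  simp only [mem_filter, mem_univ, true_and] at hx
  exact ⟨x, Fin.ext hx⟩

/-- product weights -/
lemma prod_weight (L : Fin n → Fin k) (w : ℕ → ℝ) :
    ∏ x, w (L x) = ∏ j ∈ range k, w j ^ cnt L j := by
  classical
  have h : ∀ x ∈ (univ : Finset (Fin n)), (L x : ℕ) ∈ range k :=
    fun x _ => Finset.mem_range.mpr (L x).isLt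
  rw [← Finset.prod_fiberwise_of_maps_to h]
  apply Finset.prod_congr rfl
  intro j _
  unfold cnt
  rw [Finset.prod_congr rfl (g := fun _ => w j)]
  · rw [Finset.prod_const]
  · intro x hx
    simp only [mem_filter, mem_univ, true_and] at hx
    rw [hx]

lemma sum_prod_weight (n k : ℕ) (w : ℕ → ℝ) :
    ∑ L : Fin n → Fin k, ∏ j ∈ range k, w j ^ cnt L j = (∑ j ∈ range k, w j) ^ n := by
  classical
  have h1 : ∑ j ∈ range k, w j = ∑ j : Fin k, w j := by
    rw [Finset.sum_range]
  rw [h1, Fintype.sum_pow]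
  apply Finset.sum_congr rfl
  intro L _
  rw [prod_weight]

end MP_ac85ec_co
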