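import Pool.Agent.Work.MP_ac85ec_co.Defs

/-!
# Encoding graded orders by level functions and cover relations
-/

namespace MP_ac85ec_co

open Finset

variable {n k : ℕ}

/-- in a finite order every comparability is a chain of covers -/
lemma reflTransGen_covers {R : Fin n → Fin n → Prop} (hR : IsOrder R) {p q : Fin n}
    (h : R p q) : Relation.ReflTransGen (Covers R) p q := by
  classical
  obtain ⟨hrefl, hanti, htrans⟩ := hR
  -- strong induction on the size of the interval
  suffices H : ∀ m : ℕ, ∀ p q : Fin n, R p q →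
      ((univ : Finset (Fin n)).filter (fun r => R p r ∧ R r q)).card ≤ m →
      Relation.ReflTransGen (Covers R) p q from H _ p q h le_rfl
  intro m
  induction m with
  | zero =>
    intro p q hpq hm
    exfalso
    have : p ∈ ((univ : Finset (Fin n)).filter (fun r => R p r ∧ R r q)) := by
      simp [hrefl p, hpq]
    have := Finset.card_pos.mpr ⟨p, this⟩
    omega
  | succ m ih =>
    intro p q hpq hm
    by_cases hpq' : p = q
    · subst hpq'; exact Relation.ReflTransGen.refl
    by_cases hc : Covers R p q
    · exact Relation.ReflTransGen.single hc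
    · have : ∃ r, (R p r ∧ p ≠ r) ∧ (R r q ∧ r ≠ q) := by
        by_contra hno
        exact hc ⟨⟨hpq, hpq'⟩, hno⟩
      obtain ⟨r, ⟨hpr, hpr'⟩, hrq, hrq'⟩ := this
      have h1 : ((univ : Finset (Fin n)).filter (fun s => R p s ∧ R s r)).card <
          ((univ : Finset (Fin n)).filter (fun s => R p s ∧ R s q)).card := by
        apply Finset.card_lt_card
        rw [Finset.ssubset_iff_of_subset]
        · refine ⟨q, ?_, ?_⟩
          · simp [hpq, hrefl q]
          · simp only [mem_filter, mem_univ, true_and, not_and]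
            intro _ hqr
            exact hrq' (hanti _ _ hrq hqr)
        · intro s hs
          simp only [mem_filter, mem_univ, true_and] at hs ⊢
          exact ⟨hs.1, htrans _ _ _ hs.2 hrq⟩
      have h2 : ((univ : Finset (Fin n)).filter (fun s => R r s ∧ R s q)).card <
          ((univ : Finset (Fin n)).filter (fun s => R p s ∧ R s q)).card := by
        apply Finset.card_lt_card
        rw [Finset.ssubset_iff_of_subset]
        · refine ⟨p, ?_, ?_⟩
          · simp [hpq, hrefl p]
          · simp only [mem_filter, mem_univ, true_and, not_and]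
            intro hrp _
            exact hpr' (hanti _ _ hpr hrp)
        · intro s hs
          simp only [mem_filter, mem_univ, true_and] at hs ⊢
          exact ⟨htrans _ _ _ hpr hs.1, hs.2⟩
      exact (ih p r hpr (by omega)).trans (ih r q hrq (by omega))

lemma reflTransGen_covers_iff {R : Fin n → Fin n → Prop} (hR : IsOrder R) {p q : Fin n} :
    R p q ↔ Relation.ReflTransGen (Covers R) p q := by
  refine ⟨reflTransGen_covers hR, fun h => ?_⟩
  induction h with
  | refl => exact hR.1 p
  | tail _ hc ih => exact hR.2.2 _ _ _ ih hc.1.1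

/-- a graded order is determined by its cover relation -/
lemma eq_of_covers_iff {R R' : Fin n → Fin n → Prop} (hR : IsOrder R) (hR' : IsOrder R')
    (h : ∀ p q, Covers R p q ↔ Covers R' p q) : R = R' := by
  have hE : Covers R = Covers R' := by
    funext p q
    exact propext (h p q)
  funext p q
  apply propext
  rw [reflTransGen_covers_iff hR, reflTransGen_covers_iff hR', hE]

/-- the difference of two gradings is constant along comparabilities -/
lemma grading_sub {R : Fin n → Fin n → Prop} (hR : IsOrder R) {g g' : Fin n → ℕ}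
    (hg : IsGrading R g) (hg' : IsGrading R g') {p q : Fin n} (h : R p q) :
    (g q : ℤ) - g p = g' q - g' p := by
  have := reflTransGen_covers hR h
  induction this with
  | refl => simp
  | @tail b c hb hc ih =>
    have h1 := hg.2.2.1 _ _ hc
    have h2 := hg'.2.2.1 _ _ hc
    have h3 := ih ((reflTransGen_covers_iff hR).mpr hb)
    rw [h1, h2]
    push_cast
    linarith

lemma grading_sub_comp {R : Fin n → Fin n → Prop} (hR : IsOrder R) {g g' : Fin n → ℕ}
    (hg : IsGrading R g) (hg' : IsGrading R g') {p q : Fin n} (h : SameComponent R p q) :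
    (g q : ℤ) - g p = g' q - g' p := by
  unfold SameComponent at h
  induction h with
  | refl => simp
  | @tail b c hb hc ih =>
    rcases hc with hc | hc
    · have := grading_sub hR hg hg' hc
      linarith
    · have := grading_sub hR hg hg' hc
      linarith

/-- the normalised grading is unique -/
lemma grading_unique {R : Fin n → Fin n → Prop} (hR : IsOrder R) {g g' : Fin n → ℕ}
    (hg : IsGrading R g) (hg' : IsGrading R g') : g = g' := by
  funext x
  obtain ⟨b, hb, hb1⟩ := hg.2.2.2 x
  obtain ⟨b', hb', hb1'⟩ := hg'.2.2.2 x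
  have h1 := grading_sub_comp hR hg hg' hb
  have h2 := grading_sub_comp hR hg hg' hb'
  have h3 := hg'.1 b
  have h4 := hg.1 b'
  rw [hb1] at h1
  rw [hb1'] at h2
  omega

lemma sameComponent_symm {R : Fin n → Fin n → Prop} {x y : Fin n}
    (h : SameComponent R x y) : SameComponent R y x := by
  unfold SameComponent at h ⊢
  induction h with
  | refl => exact Relation.ReflTransGen.refl
  | tail _ hc ih => exact Relation.ReflTransGen.head hc.symm ih

/-- all values between `1` and `g x` are attained -/
lemma grading_interval {R : Fin n → Fin n → Prop} (hR : IsOrder R) {g : Fin n → ℕ}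
    (hg : IsGrading R g) (x : Fin n) : ∀ m, 1 ≤ m → m ≤ g x → ∃ y, g y = m := by
  -- along chains of covers
  have key : ∀ p q : Fin n, Relation.ReflTransGen (Covers R) p q →
      (∀ m, 1 ≤ m → m ≤ g p → ∃ y, g y = m) → (∀ m, 1 ≤ m → m ≤ g q → ∃ y, g y = m) := by
    intro p q h hp
    induction h with
    | refl => exact hp
    | @tail b c hb hc ih =>
      intro m hm1 hm2
      have h1 := hg.2.2.1 _ _ hc
      by_cases hmc : m = g c
      · exact ⟨c, hmc.symm⟩
      · exact ih m hm1 (by omega)
  obtain ⟨b, hb, hb1⟩ := hg.2.2.2 x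
  -- reverse the path
  have hb' : Relation.ReflTransGen (fun u v => R u v ∨ R v u) b x := sameComponent_symm hb
  clear hb
  induction hb' with
  | refl =>
    intro m hm1 hm2
    exact ⟨b, by omega⟩
  | @tail c d hc hcd ih =>
    rcases hcd with hcd | hcd
    · exact key c d (reflTransGen_covers hR hcd) ih
    · intro m hm1 hm2
      have := hg.2.1 _ _ hcd
      exact ih m hm1 (by omega)

lemma range_grading {R : Fin n → Fin n → Prop} (hR : IsOrder R) {g : Fin n → ℕ}
    (hg : IsGrading R g) (hk : (Set.range g).ncard = k) :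
    Set.range g = Set.Icc 1 k := by
  classical
  -- the range is downward closed in `[1, ∞)`
  have hfin : (Set.range g).Finite := Set.finite_range g
  by_cases hn : (Set.range g).Nonempty
  · obtain ⟨M, hM1, hM2⟩ : ∃ M ∈ Set.range g, ∀ y ∈ Set.range g, y ≤ M := by
      obtain ⟨M, hM⟩ := hfin.exists_maximal hn
      refine ⟨M, hM.1, fun y hy => ?_⟩
      by_contra hlt
      push Not at hlt
      have := hM.2 hy hlt.le
      omega
    have hr : Set.range g = Set.Icc 1 M := by
      ext m
      constructor
      · rintro ⟨x, rfl⟩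
        exact ⟨hg.1 x, hM2 _ ⟨x, rfl⟩⟩
      · rintro ⟨hm1, hm2⟩
        obtain ⟨x, hx⟩ := hM1
        obtain ⟨y, hy⟩ := grading_interval hR hg x m hm1 (by omega)
        exact ⟨y, hy⟩
    have : (Set.Icc 1 M).ncard = M := by
      rw [← Finset.coe_Icc, Set.ncard_coe_finset, Nat.card_Icc]
      omega
    rw [hr, this] at hk
    rw [hr, hk]
  · rw [Set.not_nonempty_iff_eq_empty] at hn
    rw [hn, Set.ncard_empty] at hk
    rw [hn, ← hk]
    ext m
    simp only [Set.mem_empty_iff_false, Set.mem_Icc, false_iff, not_and, not_le]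
    omega

/-- the pairs that may be covers, for a given level function -/
def W (L : Fin n → Fin k) : Finset (Fin n × Fin n) :=
  (univ : Finset (Fin n × Fin n)).filter (fun pq => (L pq.2 : ℕ) = (L pq.1 : ℕ) + 1)

lemma mem_W {L : Fin n → Fin k} {p q : Fin n} : (p, q) ∈ W L ↔ (L q : ℕ) = (L p : ℕ) + 1 := by
  simp [W]

/-- the encoding set: level functions onto all levels, with sets of admissible pairs -/
noncomputable def codes (k n : ℕ) : Finset (Σ _ : Fin n → Fin k, Finset (Fin n × Fin n)) := by
  classical
  exact ((univ : Finset (Fin n → Fin k)).filter (fun L => Function.Surjective L)).sigma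
    (fun L => (W L).powerset)

lemma card_codes (k n : ℕ) : (codes k n).card =
    ∑ L ∈ ((univ : Finset (Fin n → Fin k)).filter (fun L => Function.Surjective L)),
      2 ^ (W L).card := by
  classical
  unfold codes
  rw [Finset.card_sigma]
  apply Finset.sum_congr
  · ext; simp
  · intro L _
    rw [Finset.card_powerset]

/-- Upper bound. -/
lemma a_le_card_codes (k n : ℕ) : a k n ≤ (codes k n).card := by
  classical
  unfold a
  have hex : ∀ R : Fin n → Fin n → Prop, GradedWith k R → ∃ L : Fin n → Fin k,
      Function.Surjective L ∧ ∀ p q, Covers R p q → (L q : ℕ) = (L p : ℕ) + 1 := by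
    intro R hR
    obtain ⟨hO, g, hg, hk⟩ := hR
    have hr := range_grading hO hg hk
    have hlt : ∀ x, g x - 1 < k := by
      intro x
      have : g x ∈ Set.Icc 1 k := by rw [← hr]; exact ⟨x, rfl⟩
      have h1 := this.1
      have h2 := this.2
      omega
    refine ⟨fun x => ⟨g x - 1, hlt x⟩, ?_, ?_⟩
    · intro j
      have : (j : ℕ) + 1 ∈ Set.range g := by
        rw [hr]
        exact ⟨by omega, by have := j.isLt; omega⟩
      obtain ⟨x, hx⟩ := this
      refine ⟨x, ?_⟩
      apply Fin.ext
      simp [hx]
    · intro p q hpq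
      have h1 := hg.2.2.1 _ _ hpq
      have h2 := hg.1 p
      simp only
      omega
  choose L hL1 hL2 using hex
  have hmem : ∀ (R : Fin n → Fin n → Prop) (hR : GradedWith k R),
      (⟨L R hR, (univ : Finset (Fin n × Fin n)).filter (fun pq => Covers R pq.1 pq.2)⟩ :
        (Σ _ : Fin n → Fin k, Finset (Fin n × Fin n))) ∈ codes k n := by
    intro R hR
    simp only [codes, Finset.mem_sigma, Finset.mem_filter, Finset.mem_univ,
      true_and, Finset.mem_powerset]
    refine ⟨hL1 R hR, ?_⟩
    intro pq hpq
    simp only [Finset.mem_filter, Finset.mem_univ, true_and] at hpq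
    obtain ⟨p, q⟩ := pq
    rw [mem_W]
    exact hL2 R hR p q hpq
  let f : {R : Fin n → Fin n → Prop | GradedWith k R} → {c // c ∈ codes k n} :=
    fun R => ⟨⟨L R.1 R.2, (univ : Finset (Fin n × Fin n)).filter
      (fun pq => Covers R.1 pq.1 pq.2)⟩, hmem R.1 R.2⟩
  have hinj : Function.Injective f := by
    intro R R' hf
    have h1 := congrArg Subtype.val hf
    have h2 : (univ : Finset (Fin n × Fin n)).filter (fun pq => Covers R.1 pq.1 pq.2) =
        (univ : Finset (Fin n × Fin n)).filter (fun pq => Covers R'.1 pq.1 pq.2) :=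
      congrArg Sigma.snd h1
    apply Subtype.ext
    apply eq_of_covers_iff R.2.1 R'.2.1
    intro p q
    have h3 := Finset.ext_iff.mp h2 (p, q)
    simpa using h3
  have h4 := Nat.card_le_card_of_injective f hinj
  rw [Nat.card_coe_set_eq, Nat.card_eq_fintype_card, Fintype.card_coe] at h4
  exact h4

theorem a_le_sum (k n : ℕ) : a k n ≤
    ∑ L ∈ ((univ : Finset (Fin n → Fin k)).filter (fun L => Function.Surjective L)),
      2 ^ (W L).card := by
  rw [← card_codes]
  exact a_le_card_codes k n

/-! ### The order generated by a code -/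

/-- the order generated by a set of pairs -/
def gen (E : Finset (Fin n × Fin n)) (x y : Fin n) : Prop :=
  Relation.ReflTransGen (fun p q => (p, q) ∈ E) x y

section gen

variable {L : Fin n → Fin k} {E : Finset (Fin n × Fin n)}

lemma gen_level (hE : E ⊆ W L) {x y : Fin n} (h : gen E x y) :
    x = y ∨ (L x : ℕ) < L y := by
  unfold gen at h
  induction h with
  | refl => left; rfl
  | @tail b c hb hc ih =>
    right
    have h1 := mem_W.mp (hE hc)
    rcases ih with ih | ih
    · subst ih; omega
    · omega

lemma gen_isOrder (hE : E ⊆ W L) : IsOrder (gen E) := by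
  refine ⟨fun x => Relation.ReflTransGen.refl, ?_, fun x y z => Relation.ReflTransGen.trans⟩
  intro x y hxy hyx
  rcases gen_level hE hxy with h | h
  · exact h
  · rcases gen_level hE hyx with h' | h'
    · exact h'.symm
    · omega

lemma gen_covers (hE : E ⊆ W L) {p q : Fin n} : Covers (gen E) p q ↔ (p, q) ∈ E := by
  constructor
  · rintro ⟨⟨hpq, hne⟩, hno⟩
    rcases Relation.ReflTransGen.cases_head hpq with h | ⟨r, hr, hrq⟩
    · exact absurd h hne
    · by_cases hrq' : r = q
      · subst hrq'; exact hr
      · exfalso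
        apply hno
        refine ⟨r, ⟨Relation.ReflTransGen.single hr, ?_⟩, hrq, hrq'⟩
        intro hpr
        have := mem_W.mp (hE hr)
        rw [hpr] at this
        omega
  · intro h
    have hL := mem_W.mp (hE h)
    refine ⟨⟨Relation.ReflTransGen.single h, ?_⟩, ?_⟩
    · intro hpq
      rw [hpq] at hL
      omega
    · rintro ⟨r, ⟨hpr, hpr'⟩, hrq, hrq'⟩
      rcases gen_level hE hpr with h1 | h1
      · exact hpr' h1
      · rcases gen_level hE hrq with h2 | h2
        · exact hrq' h2
        · omega

lemma gen_isGrading (hE : E ⊆ W L)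
    (hconn : ∀ x, ∃ b, SameComponent (gen E) x b ∧ (L b : ℕ) = 0) :
    IsGrading (gen E) (fun x => (L x : ℕ) + 1) := by
  refine ⟨fun x => Nat.succ_le_succ (Nat.zero_le _), ?_, ?_, ?_⟩
  · intro p q hpq
    rcases gen_level hE hpq with h | h
    · rw [h]
    · simp only; omega
  · intro p q hpq
    rw [gen_covers hE] at hpq
    have := mem_W.mp (hE hpq)
    simp only; omega
  · intro x
    obtain ⟨b, hb, hb0⟩ := hconn x
    exact ⟨b, hb, by simp [hb0]⟩

lemma gen_gradedWith (hL : Function.Surjective L) (hE : E ⊆ W L)
    (hconn : ∀ x, ∃ b, SameComponent (gen E) x b ∧ (L b : ℕ) = 0) :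
    GradedWith k (gen E) := by
  refine ⟨gen_isOrder hE, _, gen_isGrading hE hconn, ?_⟩
  have : Set.range (fun x => (L x : ℕ) + 1) = Set.Icc 1 k := by
    ext m
    constructor
    · rintro ⟨x, rfl⟩
      have h7 := (L x).isLt
      exact ⟨Nat.succ_le_succ (Nat.zero_le _), h7⟩
    · rintro ⟨hm1, hm2⟩
      obtain ⟨x, hx⟩ := hL ⟨m - 1, by omega⟩
      refine ⟨x, ?_⟩
      show (L x : ℕ) + 1 = m
      rw [hx]
      show m - 1 + 1 = m
      omega
  rw [this, ← Finset.coe_Icc, Set.ncard_coe_finset, Nat.card_Icc]
  omega

end gen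

/-- Lower bound. -/
theorem card_le_a {k n : ℕ} (F : Finset (Σ _ : Fin n → Fin k, Finset (Fin n × Fin n)))
    (hF : ∀ c ∈ F, Function.Surjective c.1 ∧ c.2 ⊆ W c.1 ∧
      ∀ x, ∃ b, SameComponent (gen c.2) x b ∧ (c.1 b : ℕ) = 0) :
    F.card ≤ a k n := by
  classical
  unfold a
  have hmaps : ∀ c ∈ (F : Set (Σ _ : Fin n → Fin k, Finset (Fin n × Fin n))),
      gen c.2 ∈ {R : Fin n → Fin n → Prop | GradedWith k R} := by
    intro c hc
    obtain ⟨h1, h2, h3⟩ := hF c hc
    exact gen_gradedWith h1 h2 h3
  have hinj : Set.InjOn (fun c : (Σ _ : Fin n → Fin k, Finset (Fin n × Fin n)) => gen c.2)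
      (F : Set (Σ _ : Fin n → Fin k, Finset (Fin n × Fin n))) := by
    intro c hc c' hc' h
    obtain ⟨h1, h2, h3⟩ := hF c hc
    obtain ⟨h1', h2', h3'⟩ := hF c' hc'
    obtain ⟨L, E⟩ := c
    obtain ⟨L', E'⟩ := c'
    simp only at h h1 h2 h3 h1' h2' h3'
    have hE : E = E' := by
      ext ⟨p, q⟩
      rw [← gen_covers h2, ← gen_covers h2', h]
    subst hE
    have hg := grading_unique (gen_isOrder h2) (gen_isGrading h2 h3) (gen_isGrading h2' h3')
    have hLL : L = L' := by
      funext x
      apply Fin.ext
      have h5 : (L x : ℕ) + 1 = (L' x : ℕ) + 1 := congrFun hg x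
      omega
    rw [hLL]
  have hfin : ({R : Fin n → Fin n → Prop | GradedWith k R}).Finite := Set.toFinite _
  have := Set.ncard_le_ncard_of_injOn _ hmaps hinj hfin
  rwa [Set.ncard_coe_finset] at this

end MP_ac85ec_co
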