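import Mathlib

/-!
# MP_ac85ec_co : labelled graded orders with `k` grade levels

Definitions.  An order on `[n]` is a relation `R` on `Fin n` (to be read `p ≤ q`).
-/

namespace MP_ac85ec_co

variable {n : ℕ}

/-- `R` is (the relation `≤` of) a partial order on `Fin n`. -/
def IsOrder (R : Fin n → Fin n → Prop) : Prop :=
  (∀ x, R x x) ∧ (∀ x y, R x y → R y x → x = y) ∧ (∀ x y z, R x y → R y z → R x z)

/-- `q` covers `p`: `p < q` and no `r` satisfies `p < r < q`. -/
def Covers (R : Fin n → Fin n → Prop) (p q : Fin n) : Prop :=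
  (R p q ∧ p ≠ q) ∧ ¬ ∃ r, (R p r ∧ p ≠ r) ∧ (R r q ∧ r ≠ q)

/-- `x` and `y` lie in the same connected component of the comparability graph. -/
def SameComponent (R : Fin n → Fin n → Prop) (x y : Fin n) : Prop :=
  Relation.ReflTransGen (fun u v => R u v ∨ R v u) x y

/-- `g` is the (normalised) grading of the order `R`; the values are positive integers. -/
def IsGrading (R : Fin n → Fin n → Prop) (g : Fin n → ℕ) : Prop :=
  (∀ x, 1 ≤ g x) ∧ (∀ p q, R p q → g p ≤ g q) ∧ (∀ p q, Covers R p q → g q = g p + 1) ∧
    ∀ x, ∃ b, SameComponent R x b ∧ g b = 1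

/-- `R` is a partial order on `Fin n` that is graded with exactly `k` grade levels. -/
def GradedWith (k : ℕ) (R : Fin n → Fin n → Prop) : Prop :=
  IsOrder R ∧ ∃ g : Fin n → ℕ, IsGrading R g ∧ (Set.range g).ncard = k

/-- `a k n`: the number of partial orders on `Fin n` that are graded with exactly `k` levels. -/
noncomputable def a (k n : ℕ) : ℕ :=
  Set.ncard {R : Fin n → Fin n → Prop | GradedWith k R}

end MP_ac85ec_co
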