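import Pool.Agent.Work.MP_ac85ec_co.Cnt

/-!
# Upper bound for four levels
-/

namespace MP_ac85ec_co

open Finset

/-- `log₂ (3/2)` -/
noncomputable def β : ℝ := Real.logb 2 (3 / 2)

lemma two_rpow_β : (2 : ℝ) ^ β = 3 / 2 := by
  unfold β
  exact Real.rpow_logb (by norm_num) (by norm_num) (by norm_num)

lemma β_pos : 0 < β := Real.logb_pos (by norm_num) (by norm_num)

lemma β_lt_one : β < 1 := by
  unfold β
  rw [Real.logb_lt_iff_lt_rpow (by norm_num) (by norm_num)]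
  norm_num

lemma β_lt : β < 3 / 5 := by
  unfold β
  rw [Real.logb_lt_iff_lt_rpow (by norm_num) (by norm_num)]
  rw [show (3:ℝ)/5 = 3 * (1/5 : ℝ) by norm_num, Real.rpow_mul (by norm_num)]
  have h : ((2:ℝ)^(3:ℝ)) = 8 := by norm_num
  rw [h]
  have h2 : (3/2 : ℝ) = ((3/2:ℝ)^(5:ℝ))^(1/5:ℝ) := by
    rw [← Real.rpow_mul (by norm_num)]
    norm_num
  rw [h2]
  apply Real.rpow_lt_rpow (by positivity) _ (by norm_num)
  norm_num

lemma lt_β : 1 / 2 < β := by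
  unfold β
  rw [Real.lt_logb_iff_rpow_lt (by norm_num) (by norm_num)]
  have h2 : (3/2 : ℝ) = ((3/2:ℝ)^(2:ℝ))^(1/2:ℝ) := by
    rw [← Real.rpow_mul (by norm_num)]
    norm_num
  rw [h2]
  apply Real.rpow_lt_rpow (by norm_num) _ (by norm_num)
  norm_num

/-- first weight -/
noncomputable def w1 (n : ℕ) (j : ℕ) : ℝ :=
  if j = 0 then 1 / 3 else if j = 1 then 1 else if j = 2 then 2 / 3 else 1 / n

noncomputable def w2 (n : ℕ) (j : ℕ) : ℝ :=
  if j = 0 then 1 / n else if j = 1 then 2 / 3 else if j = 2 then 1 else 1 / 3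

noncomputable def w3 (j : ℕ) : ℝ :=
  if j = 0 then 1 / 8 else if j = 1 then 1 else if j = 2 then 1 else 1 / 8

lemma third_pow (c : ℕ) : (1 / 3 : ℝ) ^ c = (2:ℝ) ^ (-(1 + β) * c) := by
  rw [Real.rpow_mul_natCast (by norm_num)]
  congr 1
  rw [Real.rpow_neg (by norm_num), Real.rpow_add (by norm_num), two_rpow_β]
  norm_num

lemma twothird_pow (c : ℕ) : (2 / 3 : ℝ) ^ c = (2:ℝ) ^ (-β * c) := by
  rw [Real.rpow_mul_natCast (by norm_num)]
  congr 1
  rw [Real.rpow_neg (by norm_num), two_rpow_β]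
  norm_num

lemma eighth_pow (c : ℕ) : (1 / 8 : ℝ) ^ c = (2:ℝ) ^ (-(3:ℝ) * c) := by
  rw [Real.rpow_mul_natCast (by norm_num)]
  congr 1
  rw [Real.rpow_neg (by norm_num)]
  norm_num

/-- pointwise bound -/
lemma pointwise (n c0 c1 c2 c3 : ℕ) (hn : 1 ≤ n) (hsum : c0 + c1 + c2 + c3 = n)
    (h0 : 1 ≤ c0) (h3 : 1 ≤ c3) :
    (2:ℝ) ^ (c0 * c1 + c1 * c2 + c2 * c3) ≤
      (2:ℝ) ^ ((n:ℝ)^2/4) * (2 * n^2 * (2:ℝ) ^ (β / 2 * n) *
        ((1/3)^c0 * 1^c1 * (2/3)^c2 * (1/n)^c3 + (1/n)^c0 * (2/3)^c1 * 1^c2 * (1/3)^c3) +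
        512 * ((1/8)^c0 * 1^c1 * 1^c2 * (1/8)^c3)) := by
  have hnR : (1:ℝ) ≤ n := by exact_mod_cast hn
  have hsumR : (c0:ℝ) + c1 + c2 + c3 = n := by exact_mod_cast hsum
  have h0R : (1:ℝ) ≤ c0 := by exact_mod_cast h0
  have h3R : (1:ℝ) ≤ c3 := by exact_mod_cast h3
  have hβ0 := β_pos
  have hβ1 := β_lt_one
  have hpow : (2:ℝ) ^ (c0 * c1 + c1 * c2 + c2 * c3) =
      (2:ℝ) ^ (((c0:ℝ) + c2) * (c1 + c3) - c0 * c3) := by
    rw [← Real.rpow_natCast]
    congr 1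
    push_cast
    ring
  have hP1 : 0 ≤ (1/3:ℝ)^c0 * 1^c1 * (2/3)^c2 * (1/n)^c3 := by positivity
  have hP2 : 0 ≤ (1/n:ℝ)^c0 * (2/3)^c1 * 1^c2 * (1/3)^c3 := by positivity
  have hP3 : 0 ≤ (1/8:ℝ)^c0 * 1^c1 * 1^c2 * (1/8)^c3 := by positivity
  rcases Nat.lt_or_ge c3 3 with hc3 | hc3
  · -- c3 ≤ 2
    have hc3n : 1 ≤ (n:ℝ)^2 * (1/n:ℝ)^c3 := by
      rw [one_div, inv_pow, ← div_eq_mul_inv, le_div_iff₀ (by positivity), one_mul]
      exact pow_le_pow_right₀ hnR (by omega)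
    have hexp : ((c0:ℝ) + c2) * (c1 + c3) - c0 * c3 ≤
        (n:ℝ)^2/4 + (1 + β/2 * n + -(1+β) * c0 + -β * c2) := by
      have e1 : ((c0:ℝ) + c2) * (c1 + c3) = (n:ℝ)^2/4 - (c0 + c2 - n/2)^2 := by
        have : (c1:ℝ) + c3 = n - (c0 + c2) := by linarith
        rw [this]; ring
      have e2 : (c0:ℝ) ≤ c0 * c3 := by nlinarith
      have e3 : -(c0 + c2 - (n:ℝ)/2)^2 + β * (c0 + c2 - (n:ℝ)/2) ≤ 1 := by
        nlinarith [sq_nonneg ((c0 + c2 - (n:ℝ)/2) - β/2)]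
      rw [e1]
      linarith
    calc (2:ℝ) ^ (c0 * c1 + c1 * c2 + c2 * c3)
        ≤ (2:ℝ) ^ ((n:ℝ)^2/4 + (1 + β/2 * n + -(1+β) * c0 + -β * c2)) := by
          rw [hpow]
          exact Real.rpow_le_rpow_of_exponent_le (by norm_num) hexp
      _ = (2:ℝ) ^ ((n:ℝ)^2/4) * (2 * (2:ℝ) ^ (β / 2 * n) * ((1/3)^c0 * (2/3)^c2)) := by
          rw [Real.rpow_add (by norm_num), Real.rpow_add (by norm_num),
            Real.rpow_add (by norm_num), Real.rpow_add (by norm_num), third_pow, twothird_pow,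
            Real.rpow_one]
          ring
      _ ≤ (2:ℝ) ^ ((n:ℝ)^2/4) * (2 * (2:ℝ) ^ (β / 2 * n) * ((1/3)^c0 * (2/3)^c2) *
            ((n:ℝ)^2 * (1/n:ℝ)^c3)) := by
          apply mul_le_mul_of_nonneg_left _ (by positivity)
          apply le_mul_of_one_le_right (by positivity) hc3n
      _ = (2:ℝ) ^ ((n:ℝ)^2/4) * (2 * n^2 * (2:ℝ) ^ (β / 2 * n) *
            ((1/3)^c0 * 1^c1 * (2/3)^c2 * (1/n)^c3)) := by
          rw [one_pow]; ring
      _ ≤ _ := by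
          apply mul_le_mul_of_nonneg_left _ (by positivity)
          have : 0 ≤ 2 * (n:ℝ)^2 * (2:ℝ) ^ (β / 2 * n) := by positivity
          have h4 := mul_nonneg this hP2
          rw [mul_add]
          linarith
  rcases Nat.lt_or_ge c0 3 with hc0 | hc0
  · -- c0 ≤ 2
    have hc0n : 1 ≤ (n:ℝ)^2 * (1/n:ℝ)^c0 := by
      rw [one_div, inv_pow, ← div_eq_mul_inv, le_div_iff₀ (by positivity), one_mul]
      exact pow_le_pow_right₀ hnR (by omega)
    have hexp : ((c0:ℝ) + c2) * (c1 + c3) - c0 * c3 ≤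
        (n:ℝ)^2/4 + (1 + β/2 * n + -(1+β) * c3 + -β * c1) := by
      have e1 : ((c0:ℝ) + c2) * (c1 + c3) = (n:ℝ)^2/4 - (c1 + c3 - n/2)^2 := by
        have : (c0:ℝ) + c2 = n - (c1 + c3) := by linarith
        rw [this]; ring
      have e2 : (c3:ℝ) ≤ c0 * c3 := by nlinarith
      have e3 : -(c1 + c3 - (n:ℝ)/2)^2 + β * (c1 + c3 - (n:ℝ)/2) ≤ 1 := by
        nlinarith [sq_nonneg ((c1 + c3 - (n:ℝ)/2) - β/2)]
      rw [e1]
      linarith
    calc (2:ℝ) ^ (c0 * c1 + c1 * c2 + c2 * c3)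
        ≤ (2:ℝ) ^ ((n:ℝ)^2/4 + (1 + β/2 * n + -(1+β) * c3 + -β * c1)) := by
          rw [hpow]
          exact Real.rpow_le_rpow_of_exponent_le (by norm_num) hexp
      _ = (2:ℝ) ^ ((n:ℝ)^2/4) * (2 * (2:ℝ) ^ (β / 2 * n) * ((1/3)^c3 * (2/3)^c1)) := by
          rw [Real.rpow_add (by norm_num), Real.rpow_add (by norm_num),
            Real.rpow_add (by norm_num), Real.rpow_add (by norm_num), third_pow, twothird_pow,
            Real.rpow_one]
          ring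
      _ ≤ (2:ℝ) ^ ((n:ℝ)^2/4) * (2 * (2:ℝ) ^ (β / 2 * n) * ((1/3)^c3 * (2/3)^c1) *
            ((n:ℝ)^2 * (1/n:ℝ)^c0)) := by
          apply mul_le_mul_of_nonneg_left _ (by positivity)
          apply le_mul_of_one_le_right (by positivity) hc0n
      _ = (2:ℝ) ^ ((n:ℝ)^2/4) * (2 * n^2 * (2:ℝ) ^ (β / 2 * n) *
            ((1/n:ℝ)^c0 * (2/3)^c1 * 1^c2 * (1/3)^c3)) := by
          rw [one_pow]; ring
      _ ≤ _ := by
          apply mul_le_mul_of_nonneg_left _ (by positivity)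
          have : 0 ≤ 2 * (n:ℝ)^2 * (2:ℝ) ^ (β / 2 * n) := by positivity
          have h4 := mul_nonneg this hP1
          rw [mul_add]
          linarith
  · -- both at least 3
    have hc0R : (3:ℝ) ≤ c0 := by exact_mod_cast hc0
    have hc3R : (3:ℝ) ≤ c3 := by exact_mod_cast hc3
    have hexp : ((c0:ℝ) + c2) * (c1 + c3) - c0 * c3 ≤
        (n:ℝ)^2/4 + (9 + -3 * c0 + -3 * c3) := by
      have e1 : ((c0:ℝ) + c2) * (c1 + c3) = (n:ℝ)^2/4 - (c1 + c3 - n/2)^2 := by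
        have : (c0:ℝ) + c2 = n - (c1 + c3) := by linarith
        rw [this]; ring
      have e2 : 3 * (c0:ℝ) + 3 * c3 - 9 ≤ c0 * c3 := by nlinarith
      rw [e1]
      nlinarith [sq_nonneg (c1 + c3 - (n:ℝ)/2)]
    calc (2:ℝ) ^ (c0 * c1 + c1 * c2 + c2 * c3)
        ≤ (2:ℝ) ^ ((n:ℝ)^2/4 + (9 + -3 * c0 + -3 * c3)) := by
          rw [hpow]
          exact Real.rpow_le_rpow_of_exponent_le (by norm_num) hexp
      _ = (2:ℝ) ^ ((n:ℝ)^2/4) * (512 * ((1/8)^c0 * 1^c1 * 1^c2 * (1/8)^c3)) := by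
          rw [Real.rpow_add (by norm_num), Real.rpow_add (by norm_num),
            Real.rpow_add (by norm_num), eighth_pow, eighth_pow, one_pow, one_pow]
          have h9 : (2:ℝ) ^ (9:ℝ) = 512 := by norm_num
          rw [h9]
          ring
      _ ≤ _ := by
          apply mul_le_mul_of_nonneg_left _ (by positivity)
          have : 0 ≤ 2 * (n:ℝ)^2 * (2:ℝ) ^ (β / 2 * n) := by positivity
          have h4 := mul_nonneg this (add_nonneg hP1 hP2)
          linarith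

lemma sum_pow_bound (n : ℕ) (hn : 1 ≤ n) : (2 + 1 / (n:ℝ)) ^ n ≤ 2 * 2 ^ n := by
  have hnR : (1:ℝ) ≤ n := by exact_mod_cast hn
  have h1 : (2 + 1 / (n:ℝ)) = 2 * (1 + 1 / (2 * n)) := by field_simp
  rw [h1, mul_pow, mul_comm]
  apply mul_le_mul_of_nonneg_right _ (by positivity)
  have h2 : (1 + 1 / (2 * (n:ℝ))) ^ n ≤ Real.exp (1 / (2 * n)) ^ n := by
    apply pow_le_pow_left₀ (by positivity)
    have := Real.add_one_le_exp (1 / (2 * (n:ℝ)))
    linarith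
  have h3 : Real.exp (1 / (2 * (n:ℝ))) ^ n = Real.exp (1/2) := by
    rw [← Real.exp_nat_mul]
    congr 1
    field_simp
  rw [h3] at h2
  have h4 : Real.exp (1/2) ≤ 2 := by
    have h5 : Real.exp 1 < 2.7182818286 := Real.exp_one_lt_d9
    have h6 : Real.exp (1/2) ^ 2 = Real.exp 1 := by
      rw [← Real.exp_nat_mul]
      norm_num
    by_contra hlt
    push Not at hlt
    have : (2:ℝ)^2 < Real.exp (1/2) ^ 2 := by
      apply pow_lt_pow_left₀ hlt (by norm_num) (by norm_num)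
    rw [h6] at this
    linarith
  linarith

lemma nine_eighth (n : ℕ) : (9/4:ℝ)^n ≤ 2 ^ n * (2:ℝ) ^ (β / 2 * n) := by
  rw [Real.rpow_mul_natCast (by norm_num), ← mul_pow]
  apply pow_le_pow_left₀ (by norm_num)
  have h1 : (9/8:ℝ) ≤ (2:ℝ) ^ (β/2) := by
    have h2 : (2:ℝ)^(β/2) = (3/2:ℝ)^(1/2:ℝ) := by
      rw [← two_rpow_β, ← Real.rpow_mul (by norm_num)]
      congr 1
      ring
    rw [h2]
    have h3 : (9/8:ℝ) = ((9/8:ℝ)^(2:ℝ))^(1/2:ℝ) := by
      rw [← Real.rpow_mul (by norm_num)]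
      norm_num
    rw [h3]
    apply Real.rpow_le_rpow (by positivity) _ (by norm_num)
    norm_num
  linarith

theorem upper4 (n : ℕ) (hn : 1 ≤ n) : (a 4 n : ℝ) ≤
    (2:ℝ) ^ ((n:ℝ)^2/4 + (1 + β / 2) * n) * (8 * n^2 + 512) := by
  classical
  have hnR : (1:ℝ) ≤ n := by exact_mod_cast hn
  have h1 : (a 4 n : ℝ) ≤
      ∑ L ∈ ((univ : Finset (Fin n → Fin 4)).filter (fun L => Function.Surjective L)),
        (2:ℝ) ^ (W L).card := by
    have := a_le_sum 4 n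
    have h2 : (a 4 n : ℝ) ≤ ((∑ L ∈ ((univ : Finset (Fin n → Fin 4)).filter
        (fun L => Function.Surjective L)), 2 ^ (W L).card : ℕ) : ℝ) := by exact_mod_cast this
    push_cast at h2
    exact h2
  have hpt : ∀ L ∈ ((univ : Finset (Fin n → Fin 4)).filter (fun L => Function.Surjective L)),
      (2:ℝ) ^ (W L).card ≤ (2:ℝ) ^ ((n:ℝ)^2/4) * (2 * n^2 * (2:ℝ) ^ (β / 2 * n) *
        (∏ j ∈ range 4, w1 n j ^ cnt L j + ∏ j ∈ range 4, w2 n j ^ cnt L j) +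
        512 * ∏ j ∈ range 4, w3 j ^ cnt L j) := by
    intro L hL
    simp only [mem_filter, mem_univ, true_and] at hL
    have hs := sum_cnt L
    have hc := card_W L
    have h40 : cnt L 4 = 0 := cnt_eq_zero L le_rfl
    simp only [Finset.sum_range_succ, Finset.sum_range_zero, Finset.prod_range_succ,
      Finset.prod_range_zero, zero_add, one_mul, w1, w2, w3] at hs hc ⊢
    rw [hc]
    have := pointwise n (cnt L 0) (cnt L 1) (cnt L 2) (cnt L 3) hn hs (cnt_pos hL (by norm_num))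
      (cnt_pos hL (by norm_num))
    norm_num [h40] at this ⊢
    exact this
  have h2 := h1.trans (Finset.sum_le_sum hpt)
  have h3 : ∑ L ∈ ((univ : Finset (Fin n → Fin 4)).filter (fun L => Function.Surjective L)),
      (2:ℝ) ^ ((n:ℝ)^2/4) * (2 * n^2 * (2:ℝ) ^ (β / 2 * n) *
        (∏ j ∈ range 4, w1 n j ^ cnt L j + ∏ j ∈ range 4, w2 n j ^ cnt L j) +
        512 * ∏ j ∈ range 4, w3 j ^ cnt L j) ≤
      ∑ L : Fin n → Fin 4,
      (2:ℝ) ^ ((n:ℝ)^2/4) * (2 * n^2 * (2:ℝ) ^ (β / 2 * n) *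
        (∏ j ∈ range 4, w1 n j ^ cnt L j + ∏ j ∈ range 4, w2 n j ^ cnt L j) +
        512 * ∏ j ∈ range 4, w3 j ^ cnt L j) := by
    apply Finset.sum_le_sum_of_subset_of_nonneg (Finset.filter_subset _ _)
    intro L _ _
    have e1 : 0 ≤ ∏ j ∈ range 4, w1 n j ^ cnt L j := by
      apply Finset.prod_nonneg
      intro j _
      apply pow_nonneg
      unfold w1
      split_ifs <;> positivity
    have e2 : 0 ≤ ∏ j ∈ range 4, w2 n j ^ cnt L j := by
      apply Finset.prod_nonneg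
      intro j _
      apply pow_nonneg
      unfold w2
      split_ifs <;> positivity
    have e3 : 0 ≤ ∏ j ∈ range 4, w3 j ^ cnt L j := by
      apply Finset.prod_nonneg
      intro j _
      apply pow_nonneg
      unfold w3
      split_ifs <;> positivity
    positivity
  refine (h2.trans h3).trans ?_
  rw [← Finset.mul_sum, Finset.sum_add_distrib, ← Finset.mul_sum, Finset.sum_add_distrib,
    ← Finset.mul_sum, sum_prod_weight, sum_prod_weight, sum_prod_weight]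
  have s1 : ∑ j ∈ range 4, w1 n j = 2 + 1 / (n:ℝ) := by
    simp only [Finset.sum_range_succ, Finset.sum_range_zero, w1]
    norm_num
  have s2 : ∑ j ∈ range 4, w2 n j = 2 + 1 / (n:ℝ) := by
    simp only [Finset.sum_range_succ, Finset.sum_range_zero, w2]
    norm_num
    ring
  have s3 : ∑ j ∈ range 4, w3 j = 9 / 4 := by
    simp only [Finset.sum_range_succ, Finset.sum_range_zero, w3]
    norm_num
  rw [s1, s2, s3]
  have b1 := sum_pow_bound n hn
  have b2 := nine_eighth n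
  have e : (2:ℝ) ^ ((n:ℝ)^2/4 + (1 + β / 2) * n) =
      (2:ℝ) ^ ((n:ℝ)^2/4) * (2 ^ n * (2:ℝ) ^ (β / 2 * n)) := by
    rw [Real.rpow_add (by norm_num)]
    congr 1
    rw [add_mul, one_mul, Real.rpow_add (by norm_num), Real.rpow_natCast]
  rw [e, mul_assoc ((2:ℝ) ^ ((n:ℝ)^2/4))]
  apply mul_le_mul_of_nonneg_left _ (by positivity)
  set X := (2:ℝ) ^ (β / 2 * n) with hX
  have hX0 : 0 ≤ X := by positivity
  have b3 : 2 * (n:ℝ)^2 * X * ((2 + 1 / (n:ℝ)) ^ n + (2 + 1 / (n:ℝ)) ^ n) ≤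
      2 * (n:ℝ)^2 * X * (2 * 2 ^ n + 2 * 2 ^ n) := by
    apply mul_le_mul_of_nonneg_left _ (by positivity)
    linarith
  nlinarith [b3, b2]

end MP_ac85ec_co
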