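import Pool.Agent.Work.MP_ac85ec_co.Good
import Pool.Agent.Work.MP_ac85ec_co.FourUpper

/-!
# Lower bound for four levels
-/

namespace MP_ac85ec_co

open Finset

/-- terms of `(1+2)^a` -/
def tt (a j : ℕ) : ℕ := a.choose j * 2 ^ (a - j)

lemma tt_rec {a j : ℕ} (hj : j < a) : tt a (j + 1) * (2 * (j + 1)) = tt a j * (a - j) := by
  unfold tt
  have h1 := Nat.choose_succ_right_eq a j
  have h2 : 2 ^ (a - j) = 2 ^ (a - (j + 1)) * 2 := by
    rw [← pow_succ]
    congr 1
    omega
  rw [h2]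
  calc a.choose (j + 1) * 2 ^ (a - (j + 1)) * (2 * (j + 1))
      = (a.choose (j + 1) * (j + 1)) * (2 ^ (a - (j + 1)) * 2) := by ring
    _ = (a.choose j * (a - j)) * (2 ^ (a - (j + 1)) * 2) := by rw [h1]
    _ = _ := by ring

lemma tt_le (a j : ℕ) (hj : j ≤ a) : tt a j ≤ tt a ((a + 1) / 3) := by
  rcases Nat.lt_or_ge j ((a + 1) / 3) with h | h
  · -- increasing part
    have key : ∀ d, j + d ≤ (a + 1) / 3 → tt a j ≤ tt a (j + d) := by
      intro d
      induction d with
      | zero => intro _; exact le_rfl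
      | succ d ih =>
        intro hd
        have h1 := ih (by omega)
        have h2 := tt_rec (a := a) (j := j + d) (by omega)
        have h3 : 2 * (j + d + 1) ≤ a - (j + d) := by omega
        have h4 : tt a (j + d) * (2 * (j + d + 1)) ≤ tt a (j + d + 1) * (2 * (j + d + 1)) := by
          rw [h2]
          exact Nat.mul_le_mul_left _ h3
        have h5 := Nat.le_of_mul_le_mul_right h4 (by omega)
        have h6 : j + (d + 1) = j + d + 1 := by ring
        rw [h6]
        exact h1.trans h5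
    have := key ((a + 1) / 3 - j) (by omega)
    rwa [show j + ((a + 1) / 3 - j) = (a + 1) / 3 by omega] at this
  · -- decreasing part
    have key : ∀ d, (a + 1) / 3 + d ≤ a → tt a ((a + 1) / 3 + d) ≤ tt a ((a + 1) / 3) := by
      intro d
      induction d with
      | zero => intro _; exact le_rfl
      | succ d ih =>
        intro hd
        have h1 := ih (by omega)
        have h2 := tt_rec (a := a) (j := (a + 1) / 3 + d) (by omega)
        have h3 : a - ((a + 1) / 3 + d) ≤ 2 * ((a + 1) / 3 + d + 1) := by omega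
        have h4 : tt a ((a + 1) / 3 + d + 1) * (2 * ((a + 1) / 3 + d + 1)) ≤
            tt a ((a + 1) / 3 + d) * (2 * ((a + 1) / 3 + d + 1)) := by
          rw [h2]
          exact Nat.mul_le_mul_left _ h3
        have h5 := Nat.le_of_mul_le_mul_right h4 (by omega)
        have h6 : (a + 1) / 3 + (d + 1) = (a + 1) / 3 + d + 1 := by ring
        rw [h6]
        exact h5.trans h1
    have := key (j - (a + 1) / 3) (by omega)
    rwa [show (a + 1) / 3 + (j - (a + 1) / 3) = j by omega] at this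

lemma three_pow_le (a : ℕ) : 3 ^ a ≤ (a + 1) * tt a ((a + 1) / 3) := by
  have h1 : (3:ℕ) ^ a = ∑ j ∈ range (a + 1), tt a j := by
    have := add_pow (1:ℕ) 2 a
    norm_num at this
    rw [this]
    apply Finset.sum_congr rfl
    intro j _
    unfold tt
    ring
  rw [h1]
  calc ∑ j ∈ range (a + 1), tt a j ≤ ∑ j ∈ range (a + 1), tt a ((a + 1) / 3) := by
        apply Finset.sum_le_sum
        intro j hj
        exact tt_le a j (by have := Finset.mem_range.mp hj; omega)
    _ = _ := by rw [Finset.sum_const, Finset.card_range, smul_eq_mul]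

lemma two_pow_le (n : ℕ) : 2 ^ n ≤ (n + 1) * n.choose (n / 2) := by
  have h1 : (2:ℕ) ^ n = ∑ j ∈ range (n + 1), n.choose j := (Nat.sum_range_choose n).symm
  rw [h1]
  calc ∑ j ∈ range (n + 1), n.choose j ≤ ∑ j ∈ range (n + 1), n.choose (n / 2) := by
        apply Finset.sum_le_sum
        intro j _
        exact Nat.choose_le_middle j n
    _ = _ := by rw [Finset.sum_const, Finset.card_range, smul_eq_mul]

/-- level sizes for the lower bound -/
def x4 (i p q : ℕ) (j : Fin 4) : ℕ :=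
  if (j : ℕ) = 0 then i else if (j : ℕ) = 1 then p else if (j : ℕ) = 2 then q else 1

lemma two_mul_le_two_pow (i : ℕ) (hi : 7 ≤ i) : 2 * (6 * i + 5) ≤ 2 ^ i := by
  induction i, hi using Nat.le_induction with
  | base => norm_num
  | succ i hi ih =>
    rw [pow_succ]
    omega

theorem lower4_nat (n : ℕ) (hn : 42 ≤ n) :
    n.choose (n / 2) * (n / 2).choose ((n / 2 + 1) / 3) *
      2 ^ ((n / 2) * (n - n / 2)) ≤ 2 * a 4 n * 2 ^ ((n / 2 + 1) / 3) := by
  classical
  set s := n / 2 with hs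
  set t := n - n / 2 with ht
  set i := (s + 1) / 3 with hi
  have hi7 : 7 ≤ i := by omega
  have hsum : ∑ j, x4 i (t - 1) (s - i) j = n := by
    simp only [Fin.sum_univ_four, x4]
    norm_num
    omega
  have hpos : ∀ j, 1 ≤ x4 i (t - 1) (s - i) j := by
    intro j
    unfold x4
    split_ifs <;> omega
  have hm : ∀ j : Fin 4, (j : ℕ) + 1 < 4 → i ≤ x4 i (t - 1) (s - i) j := by
    intro j hj
    unfold x4
    split_ifs <;> omega
  have hn2 : 2 * n ≤ 2 ^ i := by
    have := two_mul_le_two_pow i hi7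
    omega
  have hle : i ≤ s * t := by
    calc i ≤ s := by omega
      _ = s * 1 := by ring
      _ ≤ s * t := Nat.mul_le_mul_left _ (by omega)
  have hw : ∀ L : Fin n → Fin 4, (∀ j : Fin 4, cnt L j = x4 i (t - 1) (s - i) j) →
      s * t - i ≤ (W L).card := by
    intro L hL
    have h0 := hL 0
    have h1 := hL 1
    have h2 := hL 2
    have h3 := hL 3
    have h40 : cnt L 4 = 0 := cnt_eq_zero L le_rfl
    simp [x4] at h0 h1 h2 h3
    rw [card_W]
    simp only [Finset.sum_range_succ, Finset.sum_range_zero, zero_add, h0, h1, h2, h3]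
    obtain ⟨t', ht'⟩ : ∃ t', t = t' + 1 := ⟨t - 1, by omega⟩
    obtain ⟨q, hq⟩ : ∃ q, s = i + q := ⟨s - i, by omega⟩
    have e1 : t - 1 = t' := by omega
    have e2 : s - i = q := by omega
    rw [e1, e2, hq, ht']
    have : (i + q) * (t' + 1) = i * t' + t' * q + q * 1 + i := by ring
    omega
  have main := multinomial_le_a (x4 i (t - 1) (s - i)) hsum hpos i hm hn2 (s * t - i) hw
  -- the multinomial coefficient
  have hmul : n.choose s * s.choose i ≤ Nat.multinomial univ (x4 i (t - 1) (s - i)) := by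
    have h1 := Nat.multinomial_spec (univ : Finset (Fin 4)) (x4 i (t - 1) (s - i))
    rw [hsum] at h1
    have h2 : ∏ j, (x4 i (t - 1) (s - i) j).factorial =
        i.factorial * (t - 1).factorial * (s - i).factorial := by
      simp only [Fin.prod_univ_four, x4]
      norm_num
    rw [h2] at h1
    have h3 := Nat.choose_mul_factorial_mul_factorial (show s ≤ n by omega)
    have h4 := Nat.choose_mul_factorial_mul_factorial (show i ≤ s by omega)
    have h5 : (n - s).factorial = t * (t - 1).factorial := by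
      rw [Nat.mul_factorial_pred (by omega)]
    rw [h5, ← h4, ← h1] at h3
    have hp : 0 < i.factorial * (t - 1).factorial * (s - i).factorial := by positivity
    have h6 : (n.choose s * s.choose i * t) *
        (i.factorial * (t - 1).factorial * (s - i).factorial) =
        Nat.multinomial univ (x4 i (t - 1) (s - i)) *
        (i.factorial * (t - 1).factorial * (s - i).factorial) := by
      linarith
    have h7 := Nat.eq_of_mul_eq_mul_right hp h6
    rw [← h7]
    exact Nat.le_mul_of_pos_right _ (by omega)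
  calc n.choose s * s.choose i * 2 ^ (s * t)
      = (n.choose s * s.choose i) * 2 ^ (s * t - i) * 2 ^ i := by
        rw [mul_assoc _ (2 ^ (s * t - i)), ← pow_add]
        congr 2
        omega
    _ ≤ Nat.multinomial univ (x4 i (t - 1) (s - i)) * 2 ^ (s * t - i) * 2 ^ i := by
        apply Nat.mul_le_mul_right
        exact Nat.mul_le_mul_right _ hmul
    _ ≤ 2 * a 4 n * 2 ^ i := Nat.mul_le_mul_right _ main

theorem lower4 (n : ℕ) (hn : 42 ≤ n) :
    (2:ℝ) ^ ((n:ℝ)^2/4 + (1 + β / 2) * n) ≤ 8 * ((n:ℝ) + 1)^2 * a 4 n := by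
  have h1 := lower4_nat n hn
  set s := n / 2 with hs
  set i := (s + 1) / 3 with hi
  have h2 := three_pow_le s
  have h3 := two_pow_le n
  rw [← hs] at h3
  rw [← hi] at h2
  unfold tt at h2
  have hβ0 := β_pos
  have hβ1 := β_lt_one
  -- real versions
  have h1R : ((n.choose s : ℕ) : ℝ) * (s.choose i : ℕ) * 2 ^ (s * (n - s)) ≤
      2 * (a 4 n : ℝ) * 2 ^ i := by exact_mod_cast h1
  have h2R : (3:ℝ) ^ s ≤ ((s:ℝ) + 1) * ((s.choose i : ℕ) * 2 ^ (s - i)) := by exact_mod_cast h2
  have h3R : (2:ℝ) ^ n ≤ ((n:ℝ) + 1) * (n.choose s : ℕ) := by exact_mod_cast h3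
  have his : i ≤ s := by omega
  -- (3/2)^s 2^i ≤ (s+1) C(s,i)
  have h4 : (3/2:ℝ) ^ s * 2 ^ i ≤ ((s:ℝ) + 1) * (s.choose i : ℕ) := by
    have e1 : (2:ℝ) ^ s = 2 ^ (s - i) * 2 ^ i := by
      rw [← pow_add]; congr 1; omega
    have e2 : (3/2:ℝ) ^ s * 2 ^ s = 3 ^ s := by
      rw [← mul_pow]; norm_num
    have hp : (0:ℝ) < 2 ^ (s - i) := by positivity
    have : ((3/2:ℝ) ^ s * 2 ^ i) * 2 ^ (s - i) ≤ (((s:ℝ) + 1) * (s.choose i : ℕ)) * 2 ^ (s - i) := by
      calc ((3/2:ℝ) ^ s * 2 ^ i) * 2 ^ (s - i) = (3/2:ℝ) ^ s * 2 ^ s := by rw [e1]; ring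
        _ = 3 ^ s := e2
        _ ≤ _ := by linarith
    exact le_of_mul_le_mul_right this hp
  have hsn : (s:ℝ) ≤ n := by
    have : s ≤ n := by omega
    exact_mod_cast this
  -- combine
  have h5 : (2:ℝ)^n * ((3/2:ℝ) ^ s * 2 ^ i) * 2 ^ (s * (n - s)) ≤
      ((n:ℝ) + 1)^2 * (2 * (a 4 n : ℝ) * 2 ^ i) := by
    calc (2:ℝ)^n * ((3/2:ℝ) ^ s * 2 ^ i) * 2 ^ (s * (n - s))
        ≤ (((n:ℝ) + 1) * (n.choose s : ℕ)) * (((s:ℝ) + 1) * (s.choose i : ℕ)) *
          2 ^ (s * (n - s)) := by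
          apply mul_le_mul_of_nonneg_right _ (by positivity)
          exact mul_le_mul h3R h4 (by positivity) (by positivity)
      _ = ((n:ℝ) + 1) * ((s:ℝ) + 1) *
          (((n.choose s : ℕ) : ℝ) * (s.choose i : ℕ) * 2 ^ (s * (n - s))) := by ring
      _ ≤ ((n:ℝ) + 1) * ((s:ℝ) + 1) * (2 * (a 4 n : ℝ) * 2 ^ i) := by
          apply mul_le_mul_of_nonneg_left h1R (by positivity)
      _ ≤ ((n:ℝ) + 1)^2 * (2 * (a 4 n : ℝ) * 2 ^ i) := by
          apply mul_le_mul_of_nonneg_right _ (by positivity)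
          rw [sq]
          apply mul_le_mul_of_nonneg_left _ (by positivity)
          linarith
  have h6 : (2:ℝ)^n * (3/2:ℝ) ^ s * 2 ^ (s * (n - s)) ≤ ((n:ℝ) + 1)^2 * (2 * (a 4 n : ℝ)) := by
    have hp : (0:ℝ) < 2 ^ i := by positivity
    apply le_of_mul_le_mul_right _ hp
    linarith
  -- rpow versions
  have e1 : (3/2:ℝ) ^ s = (2:ℝ) ^ (β * s) := by
    rw [Real.rpow_mul_natCast (by norm_num), two_rpow_β]
  have e2 : (2:ℝ) ^ (s * (n - s)) = (2:ℝ) ^ (((s * (n - s) : ℕ) : ℝ)) := by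
    rw [Real.rpow_natCast]
  have hs1 : (n:ℝ) ≤ 2 * s + 1 := by
    have : n ≤ 2 * s + 1 := by omega
    exact_mod_cast this
  have hs2 : 2 * (s:ℝ) ≤ n := by
    have : 2 * s ≤ n := by omega
    exact_mod_cast this
  have hsn' : ((n - s : ℕ) : ℝ) = n - s := by
    rw [Nat.cast_sub (by omega)]
  have h7 : (2:ℝ) ^ ((n:ℝ)^2/4 + (1 + β / 2) * n) ≤
      4 * ((2:ℝ)^n * (3/2:ℝ) ^ s * 2 ^ (s * (n - s))) := by
    rw [e1, e2]
    have e3 : (2:ℝ)^n = (2:ℝ)^(n:ℝ) := by rw [Real.rpow_natCast]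
    have e4 : (4:ℝ) = (2:ℝ)^(2:ℝ) := by norm_num
    rw [e3, e4, ← Real.rpow_add (by norm_num), ← Real.rpow_add (by norm_num),
      ← Real.rpow_add (by norm_num)]
    apply Real.rpow_le_rpow_of_exponent_le (by norm_num)
    push_cast
    rw [hsn']
    nlinarith
  calc (2:ℝ) ^ ((n:ℝ)^2/4 + (1 + β / 2) * n)
      ≤ 4 * ((2:ℝ)^n * (3/2:ℝ) ^ s * 2 ^ (s * (n - s))) := h7
    _ ≤ 4 * (((n:ℝ) + 1)^2 * (2 * (a 4 n : ℝ))) := by linarith
    _ = _ := by ring

end MP_ac85ec_co
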