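import Pool.Agent.Work.MP_ac85ec_co.Multi

/-!
# Cover sets in which every element above the bottom level has a lower cover
-/

namespace MP_ac85ec_co

open Finset

variable {n k : ℕ}

/-- sets of admissible pairs such that each element not at level `0` is above something -/
noncomputable def good (L : Fin n → Fin k) : Finset (Finset (Fin n × Fin n)) := by
  classical
  exact (W L).powerset.filter (fun E => ∀ x, (L x : ℕ) ≠ 0 → ∃ p, (p, x) ∈ E)

lemma card_W_snd (L : Fin n → Fin k) (x : Fin n) (hx : (L x : ℕ) ≠ 0) :
    ((W L).filter (fun pq => pq.2 ≠ x)).card + cnt L ((L x : ℕ) - 1) = (W L).card := by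
  classical
  have h1 := Finset.card_filter_add_card_filter_not (s := W L) (fun pq : Fin n × Fin n => pq.2 ≠ x)
  have h2 : ((W L).filter (fun pq : Fin n × Fin n => ¬ pq.2 ≠ x)).card =
      cnt L ((L x : ℕ) - 1) := by
    unfold cnt
    apply Finset.card_bij (fun pq _ => pq.1)
    · rintro ⟨p, q⟩ h
      simp only [mem_filter, mem_W, not_not] at h
      simp only [mem_filter, mem_univ, true_and]
      obtain ⟨h3, h4⟩ := h
      subst h4
      omega
    · rintro ⟨p, q⟩ h ⟨p', q'⟩ h' heq
      simp only [mem_filter, not_not] at h h'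
      simp only at heq
      rw [heq, h.2, h'.2]
    · intro p hp
      simp only [mem_filter, mem_univ, true_and] at hp
      refine ⟨(p, x), ?_, rfl⟩
      simp only [mem_filter, mem_W, not_not, and_true]
      omega
  omega

lemma card_good (L : Fin n → Fin k) (m : ℕ) (hm : ∀ j, j + 1 < k → m ≤ cnt L j)
    (hn : 2 * n ≤ 2 ^ m) : 2 ^ (W L).card ≤ 2 * (good L).card := by
  classical
  have h1 : (W L).powerset.card ≤ (good L).card +
      ((W L).powerset.filter (fun E => ¬ ∀ x, (L x : ℕ) ≠ 0 → ∃ p, (p, x) ∈ E)).card := by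
    unfold good
    rw [Finset.card_filter_add_card_filter_not]
  have h2 : (W L).powerset.filter (fun E => ¬ ∀ x, (L x : ℕ) ≠ 0 → ∃ p, (p, x) ∈ E) ⊆
      ((univ : Finset (Fin n)).filter (fun x => (L x : ℕ) ≠ 0)).biUnion
        (fun x => ((W L).filter (fun pq => pq.2 ≠ x)).powerset) := by
    intro E hE
    simp only [mem_filter, mem_powerset] at hE
    obtain ⟨hE1, hE2⟩ := hE
    push Not at hE2
    obtain ⟨x, hx1, hx2⟩ := hE2
    simp only [mem_biUnion, mem_filter, mem_univ, true_and, mem_powerset]
    refine ⟨x, hx1, ?_⟩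
    intro pq hpq
    simp only [mem_filter]
    refine ⟨hE1 hpq, ?_⟩
    intro hne
    obtain ⟨p, q⟩ := pq
    simp only at hne
    subst hne
    exact hx2 p hpq
  have h3 : ((W L).powerset.filter (fun E => ¬ ∀ x, (L x : ℕ) ≠ 0 → ∃ p, (p, x) ∈ E)).card
      * 2 ^ m ≤ n * 2 ^ (W L).card := by
    calc _ ≤ (∑ x ∈ ((univ : Finset (Fin n)).filter (fun x => (L x : ℕ) ≠ 0)),
            (((W L).filter (fun pq => pq.2 ≠ x)).powerset).card) * 2 ^ m := by
            apply Nat.mul_le_mul_right
            exact (Finset.card_le_card h2).trans Finset.card_biUnion_le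
      _ = ∑ x ∈ ((univ : Finset (Fin n)).filter (fun x => (L x : ℕ) ≠ 0)),
            2 ^ ((W L).filter (fun pq => pq.2 ≠ x)).card * 2 ^ m := by
            rw [Finset.sum_mul]
            apply Finset.sum_congr rfl
            intro x _
            rw [Finset.card_powerset]
      _ ≤ ∑ x ∈ ((univ : Finset (Fin n)).filter (fun x => (L x : ℕ) ≠ 0)),
            2 ^ (W L).card := by
            apply Finset.sum_le_sum
            intro x hx
            simp only [mem_filter, mem_univ, true_and] at hx
            rw [← pow_add]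
            apply Nat.pow_le_pow_right (by norm_num)
            have h4 := card_W_snd L x hx
            have h5 := hm ((L x : ℕ) - 1) (by have := (L x).isLt; omega)
            omega
      _ ≤ n * 2 ^ (W L).card := by
            rw [Finset.sum_const, smul_eq_mul]
            apply Nat.mul_le_mul_right
            calc _ ≤ (univ : Finset (Fin n)).card := Finset.card_le_card (Finset.filter_subset _ _)
              _ = n := by simp
  set B := ((W L).powerset.filter (fun E => ¬ ∀ x, (L x : ℕ) ≠ 0 → ∃ p, (p, x) ∈ E)).card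
  rw [Finset.card_powerset] at h1
  have h6 : 2 * B * 2 ^ m ≤ 2 ^ (W L).card * 2 ^ m := by
    calc 2 * B * 2 ^ m = 2 * (B * 2 ^ m) := by ring
      _ ≤ 2 * (n * 2 ^ (W L).card) := by omega
      _ = (2 * n) * 2 ^ (W L).card := by ring
      _ ≤ 2 ^ m * 2 ^ (W L).card := Nat.mul_le_mul_right _ hn
      _ = _ := by ring
  have h7 : 2 * B ≤ 2 ^ (W L).card := Nat.le_of_mul_le_mul_right h6 (by positivity)
  omega

lemma good_conn {L : Fin n → Fin k} {E : Finset (Fin n × Fin n)} (hE : E ∈ good L) :
    ∀ x, ∃ b, SameComponent (gen E) x b ∧ (L b : ℕ) = 0 := by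
  classical
  simp only [good, mem_filter, mem_powerset] at hE
  obtain ⟨hE1, hE2⟩ := hE
  suffices H : ∀ m : ℕ, ∀ x, (L x : ℕ) = m → ∃ b, SameComponent (gen E) x b ∧ (L b : ℕ) = 0 from
    fun x => H _ x rfl
  intro m
  induction m with
  | zero => intro x hx; exact ⟨x, Relation.ReflTransGen.refl, hx⟩
  | succ m ih =>
    intro x hx
    obtain ⟨p, hp⟩ := hE2 x (by omega)
    have h1 := mem_W.mp (hE1 hp)
    obtain ⟨b, hb1, hb2⟩ := ih p (by omega)
    refine ⟨b, ?_, hb2⟩
    exact Relation.ReflTransGen.head (Or.inr (Relation.ReflTransGen.single hp)) hb1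

/-- Lower bound for the number of graded orders, from one vector of level sizes. -/
theorem multinomial_le_a (x : Fin k → ℕ) (hx : ∑ j, x j = n) (hpos : ∀ j, 1 ≤ x j)
    (m : ℕ) (hm : ∀ j : Fin k, (j : ℕ) + 1 < k → m ≤ x j) (hn : 2 * n ≤ 2 ^ m)
    (w : ℕ) (hw : ∀ L : Fin n → Fin k, (∀ j : Fin k, cnt L j = x j) → w ≤ (W L).card) :
    Nat.multinomial univ x * 2 ^ w ≤ 2 * a k n := by
  classical
  have h1 := card_le_a (k := k) (n := n)
    (((univ : Finset (Fin n → Fin k)).filter (fun L => ∀ j : Fin k, cnt L j = x j)).sigma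
      (fun L => good L)) (by
        rintro ⟨L, E⟩ hc
        simp only [mem_sigma, mem_filter, mem_univ, true_and] at hc
        refine ⟨?_, ?_, good_conn hc.2⟩
        · apply surjective_of_cnt
          intro j hj
          have := hc.1 ⟨j, hj⟩
          simp only at this
          rw [this]
          exact hpos _
        · have h2 := hc.2
          simp only [good, mem_filter, mem_powerset] at h2
          exact h2.1)
  rw [Finset.card_sigma] at h1
  calc Nat.multinomial univ x * 2 ^ w
      = ∑ L ∈ ((univ : Finset (Fin n → Fin k)).filter (fun L => ∀ j : Fin k, cnt L j = x j)),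
          2 ^ w := by rw [Finset.sum_const, smul_eq_mul, card_levels x hx]
    _ ≤ ∑ L ∈ ((univ : Finset (Fin n → Fin k)).filter (fun L => ∀ j : Fin k, cnt L j = x j)),
          2 * (good L).card := by
        apply Finset.sum_le_sum
        intro L hL
        simp only [mem_filter, mem_univ, true_and] at hL
        refine le_trans (Nat.pow_le_pow_right (by norm_num) (hw L hL)) ?_
        apply card_good L m _ hn
        intro j hj
        have := hL ⟨j, by omega⟩
        simp only at this
        rw [this]
        exact hm ⟨j, by omega⟩ hj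
    _ = 2 * ∑ L ∈ ((univ : Finset (Fin n → Fin k)).filter (fun L => ∀ j : Fin k, cnt L j = x j)),
          (good L).card := by rw [Finset.mul_sum]
    _ ≤ 2 * a k n := by omega

end MP_ac85ec_co
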