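import Pool.Agent.Work.MP_ac85ec_co.HiStep

/-!
# The base of the induction: five levels
-/

namespace MP_ac85ec_co.Hi

open Finset

lemma choose_fact (a b : ℕ) : ((a + b).choose b : ℝ) =
    ((a + b).factorial : ℝ) / ((a.factorial : ℝ) * (b.factorial : ℝ)) := by
  have h1 := Nat.add_choose_mul_factorial_mul_factorial a b
  have h2 : (((a + b).choose b : ℕ) : ℝ) * (a.factorial : ℝ) * (b.factorial : ℝ) =
      ((a + b).factorial : ℝ) := by exact_mod_cast h1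
  have ha : (0:ℝ) < (a.factorial : ℝ) := by exact_mod_cast a.factorial_pos
  have hb : (0:ℝ) < (b.factorial : ℝ) := by exact_mod_cast b.factorial_pos
  rw [eq_div_iff (by positivity), ← h2]
  ring

lemma mult_five (c : ℕ → ℕ) : mult 5 c =
    ((c 0 + c 2 + c 4 + (c 1 + c 3)).choose (c 1 + c 3) : ℝ) *
      (((c 0 + c 2 + c 4).choose (c 4) : ℝ) * ((c 0 + c 2).choose (c 2) : ℝ)) *
      ((c 1 + c 3).choose (c 3) : ℝ) := by
  rw [choose_fact, choose_fact, choose_fact, choose_fact]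
  unfold mult
  simp only [Finset.sum_range_succ, Finset.sum_range_zero, Finset.prod_range_succ,
    Finset.prod_range_zero, zero_add, one_mul]
  rw [show c 0 + c 1 + c 2 + c 3 + c 4 = c 0 + c 2 + c 4 + (c 1 + c 3) by ring]
  have h : ∀ i : ℕ, ((i.factorial : ℕ) : ℝ) ≠ 0 := fun i => by
    exact_mod_cast i.factorial_ne_zero
  have h0 := h (c 0)
  have h1 := h (c 1)
  have h2 := h (c 2)
  have h3 := h (c 3)
  have h4 := h (c 4)
  have h5 := h (c 0 + c 2)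
  have h6 := h (c 0 + c 2 + c 4)
  have h7 := h (c 1 + c 3)
  field_simp

lemma weight_bound (c : ℕ → ℕ) (w0 w1 w2 w3 w4 : ℝ) (h0 : 0 ≤ w0) (h1 : 0 ≤ w1) (h2 : 0 ≤ w2)
    (h3 : 0 ≤ w3) (h4 : 0 ≤ w4) :
    mult 5 c * (w0 ^ c 0 * w1 ^ c 1 * w2 ^ c 2 * w3 ^ c 3 * w4 ^ c 4) ≤
      2 ^ (c 0 + c 2 + c 4 + (c 1 + c 3)) * (w0 + w2 + w4) ^ (c 0 + c 2 + c 4) *
        (w1 + w3) ^ (c 1 + c 3) := by
  rw [mult_five]
  have b1 := choose_term_le (c 0 + c 2 + c 4) (c 1 + c 3) 1 1 (by norm_num) (by norm_num)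
  have b2 := choose_term_le (c 0) (c 2) w0 w2 h0 h2
  have b3 := choose_term_le (c 0 + c 2) (c 4) (w0 + w2) w4 (by positivity) h4
  have b4 := choose_term_le (c 1) (c 3) w1 w3 h1 h3
  rw [one_pow, one_pow, mul_one, mul_one, show (1:ℝ) + 1 = 2 by norm_num] at b1
  have b5 : ((c 0 + c 2 + c 4).choose (c 4) : ℝ) * ((c 0 + c 2).choose (c 2) : ℝ) *
      (w0 ^ c 0 * w2 ^ c 2 * w4 ^ c 4) ≤ (w0 + w2 + w4) ^ (c 0 + c 2 + c 4) := by
    refine le_trans ?_ b3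
    calc ((c 0 + c 2 + c 4).choose (c 4) : ℝ) * ((c 0 + c 2).choose (c 2) : ℝ) *
          (w0 ^ c 0 * w2 ^ c 2 * w4 ^ c 4)
        = ((c 0 + c 2 + c 4).choose (c 4) : ℝ) *
          ((((c 0 + c 2).choose (c 2) : ℝ) * (w0 ^ c 0 * w2 ^ c 2)) * w4 ^ c 4) := by ring
      _ ≤ _ := by
        apply mul_le_mul_of_nonneg_left _ (by positivity)
        exact mul_le_mul_of_nonneg_right b2 (by positivity)
  calc _ = ((c 0 + c 2 + c 4 + (c 1 + c 3)).choose (c 1 + c 3) : ℝ) *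
        (((c 0 + c 2 + c 4).choose (c 4) : ℝ) * ((c 0 + c 2).choose (c 2) : ℝ) *
          (w0 ^ c 0 * w2 ^ c 2 * w4 ^ c 4)) *
        (((c 1 + c 3).choose (c 3) : ℝ) * (w1 ^ c 1 * w3 ^ c 3)) := by ring
    _ ≤ _ := by
      apply mul_le_mul _ b4 (by positivity) (by positivity)
      exact mul_le_mul b1 b5 (by positivity) (by positivity)

lemma AB_bound (A B : ℕ) (x : ℝ) (hx1 : 1 ≤ x) (hx4 : x ≤ 4) :
    (2:ℝ) ^ (A * B) * (x ^ A * (1 / x) ^ B) ≤ (2:ℝ) ^ (((A:ℝ) + B) ^ 2 / 4 + 4) := by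
  have hx0 : 0 < x := by linarith
  have e0 : (2:ℝ) ^ (A * B) = (2:ℝ) ^ ((A:ℝ) * B) := by
    rw [← Real.rpow_natCast]; push_cast; rfl
  rcases le_or_gt B A with h | h
  · obtain ⟨d, rfl⟩ : ∃ d, A = B + d := ⟨A - B, by omega⟩
    have e1 : x ^ (B + d) * (1 / x) ^ B = x ^ d := by
      rw [pow_add, one_div, inv_pow]
      field_simp
    have e2 : x ^ d ≤ (2:ℝ) ^ (2 * (d:ℝ)) := by
      rw [Real.rpow_mul_natCast (by norm_num)]
      apply pow_le_pow_left₀ hx0.le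
      norm_num
      exact hx4
    rw [e0, e1]
    calc (2:ℝ) ^ (((B + d : ℕ) : ℝ) * B) * x ^ d
        ≤ (2:ℝ) ^ (((B + d : ℕ) : ℝ) * B) * (2:ℝ) ^ (2 * (d:ℝ)) :=
          mul_le_mul_of_nonneg_left e2 (by positivity)
      _ = (2:ℝ) ^ (((B + d : ℕ) : ℝ) * B + 2 * (d:ℝ)) := (two_add _ _).symm
      _ ≤ _ := by
        apply Real.rpow_le_rpow_of_exponent_le (by norm_num)
        push_cast
        nlinarith [sq_nonneg ((d:ℝ) - 4)]
  · have e1 : x ^ A * (1 / x) ^ B ≤ 1 := by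
      obtain ⟨d, rfl⟩ : ∃ d, B = A + d := ⟨B - A, by omega⟩
      rw [pow_add, ← mul_assoc, ← mul_pow, mul_one_div_cancel hx0.ne', one_pow, one_mul]
      apply pow_le_one₀ (by positivity)
      rw [div_le_one hx0]
      exact hx1
    rw [e0]
    calc (2:ℝ) ^ ((A:ℝ) * B) * (x ^ A * (1 / x) ^ B) ≤ (2:ℝ) ^ ((A:ℝ) * B) * 1 :=
          mul_le_mul_of_nonneg_left e1 (by positivity)
      _ ≤ _ := by
        rw [mul_one]
        apply Real.rpow_le_rpow_of_exponent_le (by norm_num)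
        nlinarith [sq_nonneg ((A:ℝ) - B)]

lemma one_add_pow_le (N : ℕ) (hN : 1 ≤ N) : (1 + 2 / (N:ℝ)) ^ N ≤ 8 := by
  have hNR : (1:ℝ) ≤ N := by exact_mod_cast hN
  have h2 : (1 + 2 / (N:ℝ)) ^ N ≤ Real.exp (2 / N) ^ N := by
    apply pow_le_pow_left₀ (by positivity)
    have := Real.add_one_le_exp (2 / (N:ℝ))
    linarith
  have h3 : Real.exp (2 / (N:ℝ)) ^ N = Real.exp 1 ^ 2 := by
    rw [← Real.exp_nat_mul, ← Real.exp_nat_mul]
    congr 1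
    field_simp
    norm_num
  rw [h3] at h2
  have h5 : Real.exp 1 < 2.7182818286 := Real.exp_one_lt_d9
  have h6 : 0 < Real.exp 1 := Real.exp_pos 1
  nlinarith

lemma case_core (c : ℕ → ℕ) (hN : 1 ≤ S 4 c) (w0 w1 w2 w3 w4 x : ℝ) (h0 : 0 ≤ w0) (h1 : 0 ≤ w1)
    (h2 : 0 ≤ w2) (h3 : 0 ≤ w3) (h4 : 0 ≤ w4) (hx1 : 1 ≤ x) (hx4 : x ≤ 4)
    (hα : w0 + w2 + w4 ≤ x * (1 + 2 / (S 4 c : ℝ)))
    (hγ : w1 + w3 ≤ 1 / x * (1 + 2 / (S 4 c : ℝ)))
    (hw : (2:ℝ) ^ (c 0 + c 4) ≤ 2 ^ 8 * (S 4 c : ℝ) ^ 4 *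
      (w0 ^ c 0 * w1 ^ c 1 * w2 ^ c 2 * w3 ^ c 3 * w4 ^ c 4) * 2 ^ (c 0 * c 3 + c 1 * c 4)) :
    F 4 c ≤ 2 ^ 15 * ((S 4 c : ℝ) + 1) ^ 4 *
      (2:ℝ) ^ ((S 4 c : ℝ) ^ 2 / 4 + (6 - ((4:ℕ):ℝ)) / 2 * (S 4 c)) := by
  have hSe : S 4 c = c 0 + c 2 + c 4 + (c 1 + c 3) := by
    unfold S
    simp only [Finset.sum_range_succ, Finset.sum_range_zero, zero_add]
    ring
  have hG : (c 0 + c 2 + c 4) * (c 1 + c 3) = G 4 c + (c 0 * c 3 + c 1 * c 4) := by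
    unfold G
    simp only [Finset.sum_range_succ, Finset.sum_range_zero, zero_add]
    ring
  have hwb := weight_bound c w0 w1 w2 w3 w4 h0 h1 h2 h3 h4
  have hxpos : 0 < x := by linarith
  set N := S 4 c with hNdef
  set A := c 0 + c 2 + c 4 with hA
  set B := c 1 + c 3 with hB
  set Q := w0 ^ c 0 * w1 ^ c 1 * w2 ^ c 2 * w3 ^ c 3 * w4 ^ c 4 with hQ
  have hNR : (N:ℝ) = (A:ℝ) + B := by exact_mod_cast hSe
  have hN0 : (0:ℝ) < N := by exact_mod_cast hN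
  have hAB := AB_bound A B x hx1 hx4
  have hε := one_add_pow_le N hN
  set ε := 1 + 2 / (N:ℝ) with hεdef
  have hε1 : 1 ≤ ε := by
    rw [hεdef]
    have : 0 < 2 / (N:ℝ) := by positivity
    linarith
  have hm0 := mult_pos 5 c
  have hcore : mult 5 c * Q * 2 ^ (A * B) ≤ 2 ^ N * (8 * (2:ℝ) ^ ((N:ℝ) ^ 2 / 4 + 4)) := by
    have k1 : (w0 + w2 + w4) ^ A ≤ (x * ε) ^ A := pow_le_pow_left₀ (by positivity) hα A
    have k2 : (w1 + w3) ^ B ≤ (1 / x * ε) ^ B := pow_le_pow_left₀ (by positivity) hγ B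
    calc mult 5 c * Q * 2 ^ (A * B)
        ≤ (2 ^ (A + B) * (w0 + w2 + w4) ^ A * (w1 + w3) ^ B) * 2 ^ (A * B) :=
          mul_le_mul_of_nonneg_right hwb (by positivity)
      _ ≤ (2 ^ (A + B) * (x * ε) ^ A * (1 / x * ε) ^ B) * 2 ^ (A * B) := by
          apply mul_le_mul_of_nonneg_right _ (by positivity)
          apply mul_le_mul _ k2 (by positivity) (by positivity)
          exact mul_le_mul_of_nonneg_left k1 (by positivity)
      _ = 2 ^ (A + B) * (ε ^ (A + B) * ((2:ℝ) ^ (A * B) * (x ^ A * (1 / x) ^ B))) := by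
          rw [mul_pow, mul_pow, pow_add ε]
          ring
      _ ≤ 2 ^ (A + B) * (8 * (2:ℝ) ^ (((A:ℝ) + B) ^ 2 / 4 + 4)) := by
          apply mul_le_mul_of_nonneg_left _ (by positivity)
          apply mul_le_mul _ hAB (by positivity) (by norm_num)
          rw [← hSe]
          exact hε
      _ = _ := by rw [← hSe, ← hNR]
  have hexp : (2:ℝ) ^ ((N : ℝ) ^ 2 / 4 + (6 - ((4:ℕ):ℝ)) / 2 * N) =
      (2:ℝ) ^ ((N:ℝ) ^ 2 / 4) * 2 ^ N := by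
    rw [two_add, ← Real.rpow_natCast 2 N]
    congr 2
    push_cast
    ring
  have hexp2 : (2:ℝ) ^ ((N:ℝ) ^ 2 / 4 + 4) = (2:ℝ) ^ ((N:ℝ) ^ 2 / 4) * 16 := by
    rw [two_add]
    norm_num
  have hNp : (N:ℝ) ^ 4 ≤ ((N:ℝ) + 1) ^ 4 := pow_le_pow_left₀ hN0.le (by linarith) 4
  unfold F
  calc mult 5 c * 2 ^ G 4 c * 2 ^ (c 0 + c 4)
      ≤ mult 5 c * 2 ^ G 4 c * (2 ^ 8 * (N:ℝ) ^ 4 * Q * 2 ^ (c 0 * c 3 + c 1 * c 4)) :=
        mul_le_mul_of_nonneg_left hw (by positivity)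
    _ = 2 ^ 8 * (N:ℝ) ^ 4 * (mult 5 c * Q * 2 ^ (A * B)) := by
        rw [hG, pow_add]
        ring
    _ ≤ 2 ^ 8 * (N:ℝ) ^ 4 * (2 ^ N * (8 * (2:ℝ) ^ ((N:ℝ) ^ 2 / 4 + 4))) :=
        mul_le_mul_of_nonneg_left hcore (by positivity)
    _ = 2 ^ 15 * (N:ℝ) ^ 4 * ((2:ℝ) ^ ((N:ℝ) ^ 2 / 4) * 2 ^ N) := by
        rw [hexp2]
        ring
    _ ≤ 2 ^ 15 * ((N:ℝ) + 1) ^ 4 * ((2:ℝ) ^ ((N:ℝ) ^ 2 / 4) * 2 ^ N) := by
        apply mul_le_mul_of_nonneg_right _ (by positivity)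
        exact mul_le_mul_of_nonneg_left hNp (by norm_num)
    _ = _ := by rw [hexp]

/-- weights `2 ^ (-a)` and `1 / N` -/
lemma pow_half (a e : ℕ) : ((1:ℝ) / 2 ^ a) ^ e = 1 / 2 ^ (a * e) := by
  rw [one_div, inv_pow, ← pow_mul, one_div]

lemma small_pow (N e : ℕ) (hN : 1 ≤ N) (he : e ≤ 2) : (1:ℝ) ≤ (N:ℝ) ^ 2 * (1 / (N:ℝ)) ^ e := by
  have hNR : (1:ℝ) ≤ N := by exact_mod_cast hN
  rw [one_div, inv_pow, ← div_eq_mul_inv, le_div_iff₀ (by positivity), one_mul]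
  exact pow_le_pow_right₀ hNR he

lemma half_case (c : ℕ → ℕ) (hc : ∀ j, j ≤ 4 → 1 ≤ c j) (h4 : c 4 ≤ 2) :
    F 4 c ≤ 2 ^ 15 * ((S 4 c : ℝ) + 1) ^ 4 *
      (2:ℝ) ^ ((S 4 c : ℝ) ^ 2 / 4 + (6 - ((4:ℕ):ℝ)) / 2 * (S 4 c)) := by
  have c0 := hc 0 (by norm_num)
  have c1 := hc 1 (by norm_num)
  have c2 := hc 2 (by norm_num)
  have c3 := hc 3 (by norm_num)
  have c4 := hc 4 (by norm_num)
  have hSe : S 4 c = c 0 + c 2 + c 4 + (c 1 + c 3) := by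
    unfold S
    simp only [Finset.sum_range_succ, Finset.sum_range_zero, zero_add]
    ring
  have hN : 1 ≤ S 4 c := by omega
  have hNR : (1:ℝ) ≤ (S 4 c : ℝ) := by exact_mod_cast hN
  have s4 := small_pow (S 4 c) (c 4) hN h4
  have hinv : 0 < 1 / (S 4 c : ℝ) := by positivity
  have e2N : 2 / (S 4 c : ℝ) = 2 * (1 / (S 4 c : ℝ)) := by ring
  by_cases h0 : c 0 ≤ 2
  · have s0 := small_pow (S 4 c) (c 0) hN h0
    apply case_core c hN (1 / (S 4 c : ℝ)) (1 / 2 ^ 1) 1 (1 / 2 ^ 1) (1 / (S 4 c : ℝ)) 1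
      (by positivity) (by positivity) (by norm_num) (by positivity) (by positivity) le_rfl
      (by norm_num)
    · rw [e2N]; linarith
    · rw [e2N]; norm_num
    · rw [pow_half, pow_half, one_pow, one_mul, one_mul]
      have hprod : (1:ℝ) ≤ ((S 4 c : ℝ) ^ 2 * (1 / (S 4 c : ℝ)) ^ c 0) *
          ((S 4 c : ℝ) ^ 2 * (1 / (S 4 c : ℝ)) ^ c 4) := one_le_mul_of_one_le_of_one_le s0 s4
      have hpow : (2:ℝ) ^ (c 0 + c 4) ≤ 2 ^ 8 * (1 / 2 ^ c 1) * (1 / 2 ^ c 3) *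
          2 ^ (c 0 * c 3 + c 1 * c 4) := by
        rw [mul_assoc, mul_assoc, mul_comm, mul_assoc]
        have : (2:ℝ) ^ (c 0 + c 4) * (2 ^ c 1 * 2 ^ c 3) ≤ 2 ^ (c 0 * c 3 + c 1 * c 4) * 2 ^ 8 := by
          rw [← pow_add, ← pow_add, ← pow_add]
          apply pow_le_pow_right₀ (by norm_num)
          nlinarith
        have h5 : (0:ℝ) < 2 ^ c 1 * 2 ^ c 3 := by positivity
        rw [← le_div_iff₀ h5] at this
        refine this.trans (le_of_eq ?_)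
        field_simp
      calc (2:ℝ) ^ (c 0 + c 4) ≤ 2 ^ 8 * (1 / 2 ^ c 1) * (1 / 2 ^ c 3) *
          2 ^ (c 0 * c 3 + c 1 * c 4) * 1 := by rw [mul_one]; exact hpow
        _ ≤ 2 ^ 8 * (1 / 2 ^ c 1) * (1 / 2 ^ c 3) *
          2 ^ (c 0 * c 3 + c 1 * c 4) * (((S 4 c : ℝ) ^ 2 * (1 / (S 4 c : ℝ)) ^ c 0) *
          ((S 4 c : ℝ) ^ 2 * (1 / (S 4 c : ℝ)) ^ c 4)) :=
            mul_le_mul_of_nonneg_left hprod (by positivity)
        _ = _ := by ring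
  by_cases h3 : c 3 ≤ 2
  · have s3 := small_pow (S 4 c) (c 3) hN h3
    apply case_core c hN 1 (1 / 2 ^ 1) 1 (1 / (S 4 c : ℝ)) (1 / (S 4 c : ℝ)) 2
      (by positivity) (by positivity) (by norm_num) (by positivity) (by positivity) (by norm_num)
      (by norm_num)
    · rw [e2N]; linarith
    · rw [e2N]; linarith
    · rw [pow_half, one_pow, one_pow, one_mul, one_mul]
      have hprod : (1:ℝ) ≤ ((S 4 c : ℝ) ^ 2 * (1 / (S 4 c : ℝ)) ^ c 3) *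
          ((S 4 c : ℝ) ^ 2 * (1 / (S 4 c : ℝ)) ^ c 4) := one_le_mul_of_one_le_of_one_le s3 s4
      have hpow : (2:ℝ) ^ (c 0 + c 4) ≤ 2 ^ 8 * (1 / 2 ^ c 1) *
          2 ^ (c 0 * c 3 + c 1 * c 4) := by
        have : (2:ℝ) ^ (c 0 + c 4) * 2 ^ c 1 ≤ 2 ^ 8 * 2 ^ (c 0 * c 3 + c 1 * c 4) := by
          rw [← pow_add, ← pow_add]
          apply pow_le_pow_right₀ (by norm_num)
          nlinarith
        have h5 : (0:ℝ) < 2 ^ c 1 := by positivity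
        rw [← le_div_iff₀ h5] at this
        refine this.trans (le_of_eq ?_)
        field_simp
      calc (2:ℝ) ^ (c 0 + c 4) ≤ 2 ^ 8 * (1 / 2 ^ c 1) *
          2 ^ (c 0 * c 3 + c 1 * c 4) * 1 := by rw [mul_one]; exact hpow
        _ ≤ 2 ^ 8 * (1 / 2 ^ c 1) *
          2 ^ (c 0 * c 3 + c 1 * c 4) * (((S 4 c : ℝ) ^ 2 * (1 / (S 4 c : ℝ)) ^ c 3) *
          ((S 4 c : ℝ) ^ 2 * (1 / (S 4 c : ℝ)) ^ c 4)) :=
            mul_le_mul_of_nonneg_left hprod (by positivity)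
        _ = _ := by ring
  · apply case_core c hN (1 / 2 ^ 2) (1 / 2 ^ 1) 1 (1 / 2 ^ 2) (1 / (S 4 c : ℝ)) (4 / 3)
      (by positivity) (by positivity) (by norm_num) (by positivity) (by positivity) (by norm_num)
      (by norm_num)
    · rw [e2N]; linarith
    · rw [e2N]; linarith
    · rw [pow_half, pow_half, pow_half, one_pow, one_mul, mul_one]
      have hprod : (1:ℝ) ≤ (S 4 c : ℝ) ^ 4 * (1 / (S 4 c : ℝ)) ^ c 4 := by
        refine s4.trans ?_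
        apply mul_le_mul_of_nonneg_right _ (by positivity)
        exact pow_le_pow_right₀ hNR (by norm_num)
      have hpow : (2:ℝ) ^ (c 0 + c 4) ≤ 2 ^ 8 * (1 / 2 ^ (2 * c 0)) * (1 / 2 ^ c 1) *
          (1 / 2 ^ (2 * c 3)) * 2 ^ (c 0 * c 3 + c 1 * c 4) := by
        have : (2:ℝ) ^ (c 0 + c 4) * (2 ^ (2 * c 0) * 2 ^ c 1 * 2 ^ (2 * c 3)) ≤
            2 ^ 8 * 2 ^ (c 0 * c 3 + c 1 * c 4) := by
          rw [← pow_add, ← pow_add, ← pow_add, ← pow_add]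
          apply pow_le_pow_right₀ (by norm_num)
          obtain ⟨p, hp⟩ : ∃ p, c 0 = p + 3 := ⟨c 0 - 3, by omega⟩
          obtain ⟨q, hq⟩ : ∃ q, c 3 = q + 3 := ⟨c 3 - 3, by omega⟩
          rw [hp, hq]
          nlinarith [Nat.zero_le (p * q)]
        have h5 : (0:ℝ) < 2 ^ (2 * c 0) * 2 ^ c 1 * 2 ^ (2 * c 3) := by positivity
        rw [← le_div_iff₀ h5] at this
        refine this.trans (le_of_eq ?_)
        field_simp
      calc (2:ℝ) ^ (c 0 + c 4) ≤ 2 ^ 8 * (1 / 2 ^ (2 * c 0)) * (1 / 2 ^ c 1) *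
          (1 / 2 ^ (2 * c 3)) * 2 ^ (c 0 * c 3 + c 1 * c 4) * 1 := by rw [mul_one]; exact hpow
        _ ≤ 2 ^ 8 * (1 / 2 ^ (2 * c 0)) * (1 / 2 ^ c 1) *
          (1 / 2 ^ (2 * c 3)) * 2 ^ (c 0 * c 3 + c 1 * c 4) *
            ((S 4 c : ℝ) ^ 4 * (1 / (S 4 c : ℝ)) ^ c 4) :=
            mul_le_mul_of_nonneg_left hprod (by positivity)
        _ = _ := by ring

theorem Bd_four : Bd 4 := by
  refine ⟨2 ^ 15, 4, by norm_num, ?_⟩
  intro c hc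
  by_cases h4 : c 4 ≤ 2
  · exact half_case c hc h4
  by_cases h0 : c 0 ≤ 2
  · have := half_case (fun j => c (4 - j)) (fun j hj => hc _ (by omega)) (by simpa using h0)
    rw [F_rev, S_rev] at this
    exact this
  · -- both ends large
    have c1 := hc 1 (by norm_num)
    have c2 := hc 2 (by norm_num)
    have c3 := hc 3 (by norm_num)
    have hSe : S 4 c = c 0 + c 2 + c 4 + (c 1 + c 3) := by
      unfold S
      simp only [Finset.sum_range_succ, Finset.sum_range_zero, zero_add]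
      ring
    have hN : 1 ≤ S 4 c := by omega
    have hNR : (1:ℝ) ≤ (S 4 c : ℝ) := by exact_mod_cast hN
    have hinv : 0 < 1 / (S 4 c : ℝ) := by positivity
    have e2N : 2 / (S 4 c : ℝ) = 2 * (1 / (S 4 c : ℝ)) := by ring
    apply case_core c hN 1 (1 / 2 ^ 3) 1 (1 / 2 ^ 3) 1 4
      (by positivity) (by positivity) (by norm_num) (by positivity) (by positivity) (by norm_num)
      (by norm_num)
    · rw [e2N]; linarith
    · rw [e2N]; linarith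
    · rw [pow_half, pow_half, one_pow, one_pow, one_pow, one_mul, mul_one, mul_one]
      have hpow : (2:ℝ) ^ (c 0 + c 4) ≤ 2 ^ 8 * (1 / 2 ^ (3 * c 1)) *
          (1 / 2 ^ (3 * c 3)) * 2 ^ (c 0 * c 3 + c 1 * c 4) := by
        have : (2:ℝ) ^ (c 0 + c 4) * (2 ^ (3 * c 1) * 2 ^ (3 * c 3)) ≤
            2 ^ 8 * 2 ^ (c 0 * c 3 + c 1 * c 4) := by
          rw [← pow_add, ← pow_add, ← pow_add]
          apply pow_le_pow_right₀ (by norm_num)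
          obtain ⟨p, hp⟩ : ∃ p, c 0 = p + 3 := ⟨c 0 - 3, by omega⟩
          obtain ⟨q, hq⟩ : ∃ q, c 4 = q + 3 := ⟨c 4 - 3, by omega⟩
          obtain ⟨r, hr⟩ : ∃ r, c 1 = r + 1 := ⟨c 1 - 1, by omega⟩
          obtain ⟨s, hs⟩ : ∃ s, c 3 = s + 1 := ⟨c 3 - 1, by omega⟩
          rw [hp, hq, hr, hs]
          nlinarith [Nat.zero_le (p * s), Nat.zero_le (r * q)]
        have h5 : (0:ℝ) < 2 ^ (3 * c 1) * 2 ^ (3 * c 3) := by positivity
        rw [← le_div_iff₀ h5] at this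
        refine this.trans (le_of_eq ?_)
        field_simp
      calc (2:ℝ) ^ (c 0 + c 4) ≤ 2 ^ 8 * (1 / 2 ^ (3 * c 1)) *
          (1 / 2 ^ (3 * c 3)) * 2 ^ (c 0 * c 3 + c 1 * c 4) * 1 := by rw [mul_one]; exact hpow
        _ ≤ 2 ^ 8 * (1 / 2 ^ (3 * c 1)) *
          (1 / 2 ^ (3 * c 3)) * 2 ^ (c 0 * c 3 + c 1 * c 4) * (S 4 c : ℝ) ^ 4 :=
            mul_le_mul_of_nonneg_left (one_le_pow₀ hNR) (by positivity)
        _ = _ := by ring

theorem Bd_all (m : ℕ) (hm : 4 ≤ m) : Bd m := by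
  induction m, hm using Nat.le_induction with
  | base => exact Bd_four
  | succ m hm ih => exact Bd_succ m hm ih

end MP_ac85ec_co.Hi
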