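import Pool.Agent.Work.MP_ac85ec_co.Multi

/-!
# Five or more levels: weights of level size vectors

For level sizes `c 0, …, c m` (so `m + 1` levels) we use the real multinomial coefficient
`mult (m + 1) c` and the number `G m c` of admissible pairs.
-/

namespace MP_ac85ec_co.Hi

open Finset

/-- multinomial coefficient -/
noncomputable def mult (k : ℕ) (c : ℕ → ℕ) : ℝ :=
  ((∑ j ∈ range k, c j).factorial : ℝ) / ∏ j ∈ range k, ((c j).factorial : ℝ)

/-- number of admissible pairs for `m + 1` levels -/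
def G (m : ℕ) (c : ℕ → ℕ) : ℕ := ∑ j ∈ range m, c j * c (j + 1)

/-- the weight used in the induction -/
noncomputable def F (m : ℕ) (c : ℕ → ℕ) : ℝ := mult (m + 1) c * 2 ^ (G m c) * 2 ^ (c 0 + c m)

lemma mult_pos (k : ℕ) (c : ℕ → ℕ) : 0 < mult k c := by
  unfold mult
  have : 0 < ∏ j ∈ range k, ((c j).factorial : ℝ) :=
    Finset.prod_pos (fun j _ => by exact_mod_cast (c j).factorial_pos)
  have h2 : (0:ℝ) < ((∑ j ∈ range k, c j).factorial : ℝ) := by
    exact_mod_cast Nat.factorial_pos _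
  positivity

lemma mult_succ (k : ℕ) (c : ℕ → ℕ) :
    mult (k + 1) c = ((∑ j ∈ range k, c j) + c k).choose (c k) * mult k c := by
  unfold mult
  rw [Finset.sum_range_succ, Finset.prod_range_succ]
  have h1 := Nat.add_choose_mul_factorial_mul_factorial (∑ j ∈ range k, c j) (c k)
  have h2 : ((((∑ j ∈ range k, c j) + c k).choose (c k) : ℕ) : ℝ) *
      ((∑ j ∈ range k, c j).factorial : ℝ) * ((c k).factorial : ℝ) =
      (((∑ j ∈ range k, c j) + c k).factorial : ℝ) := by exact_mod_cast h1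
  have hp : 0 < ∏ j ∈ range k, ((c j).factorial : ℝ) :=
    Finset.prod_pos (fun j _ => by exact_mod_cast (c j).factorial_pos)
  have hc : (0:ℝ) < ((c k).factorial : ℝ) := by exact_mod_cast (c k).factorial_pos
  rw [← h2]
  field_simp

/-- one term of the binomial theorem -/
lemma choose_term_le (a b : ℕ) (x y : ℝ) (hx : 0 ≤ x) (hy : 0 ≤ y) :
    ((a + b).choose b : ℝ) * (x ^ a * y ^ b) ≤ (x + y) ^ (a + b) := by
  rw [add_pow x y (a + b)]
  have hmem : a ∈ range (a + b + 1) := by simp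
  have := Finset.single_le_sum (f := fun m => x ^ m * y ^ (a + b - m) * ((a + b).choose m : ℝ))
    (fun i _ => by positivity) hmem
  rw [show a + b - a = b by omega, Nat.choose_symm_add] at this
  linarith

lemma mult_le (k : ℕ) (c : ℕ → ℕ) : mult k c ≤ (k : ℝ) ^ (∑ j ∈ range k, c j) := by
  induction k with
  | zero => simp [mult]
  | succ k ih =>
    rw [mult_succ, Finset.sum_range_succ]
    have h1 := choose_term_le (∑ j ∈ range k, c j) (c k) k 1 (by positivity) (by norm_num)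
    rw [one_pow, mul_one] at h1
    push_cast
    refine le_trans ?_ h1
    exact mul_le_mul_of_nonneg_left ih (by positivity)

/-- reversal of the levels -/
lemma mult_rev (m : ℕ) (c : ℕ → ℕ) : mult (m + 1) (fun j => c (m - j)) = mult (m + 1) c := by
  unfold mult
  have h1 : ∑ j ∈ range (m + 1), c (m - j) = ∑ j ∈ range (m + 1), c j := by
    have := Finset.sum_range_reflect c (m + 1)
    simpa using this
  have h2 : ∏ j ∈ range (m + 1), ((c (m - j)).factorial : ℝ) =
      ∏ j ∈ range (m + 1), ((c j).factorial : ℝ) := by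
    have := Finset.prod_range_reflect (fun j => ((c j).factorial : ℝ)) (m + 1)
    simpa using this
  rw [h1, h2]

lemma sum_rev (m : ℕ) (c : ℕ → ℕ) :
    ∑ j ∈ range (m + 1), c (m - j) = ∑ j ∈ range (m + 1), c j := by
  have := Finset.sum_range_reflect c (m + 1)
  simpa using this

lemma G_rev (m : ℕ) (c : ℕ → ℕ) : G m (fun j => c (m - j)) = G m c := by
  unfold G
  rw [← Finset.sum_range_reflect (fun j => c j * c (j + 1)) m]
  apply Finset.sum_congr rfl
  intro j hj
  have hj' := Finset.mem_range.mp hj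
  show c (m - j) * c (m - (j + 1)) = c (m - 1 - j) * c (m - 1 - j + 1)
  rw [show m - 1 - j + 1 = m - j by omega, show m - (j + 1) = m - 1 - j by omega]
  ring

lemma F_rev (m : ℕ) (c : ℕ → ℕ) : F m (fun j => c (m - j)) = F m c := by
  unfold F
  rw [mult_rev, G_rev]
  congr 2
  simp only [Nat.sub_zero, Nat.sub_self]
  ring

/-- a weighted path has at most `S ^ 2 / 4` -/
lemma path_aux (p : ℕ) (d : ℕ → ℕ) : ∃ A B : ℕ, A + B = ∑ j ∈ range (p + 1), d j ∧
    d p ≤ A ∧ ∑ j ∈ range p, d j * d (j + 1) ≤ A * B := by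
  induction p with
  | zero => exact ⟨d 0, 0, by simp, le_rfl, by simp⟩
  | succ p ih =>
    obtain ⟨A, B, h1, h2, h3⟩ := ih
    refine ⟨B + d (p + 1), A, ?_, by omega, ?_⟩
    · rw [Finset.sum_range_succ, ← h1]; ring
    · rw [Finset.sum_range_succ]
      nlinarith [Nat.mul_le_mul_right (d (p + 1)) h2]

lemma path_le (p : ℕ) (d : ℕ → ℕ) :
    4 * ∑ j ∈ range p, d j * d (j + 1) ≤ (∑ j ∈ range (p + 1), d j) ^ 2 := by
  obtain ⟨A, B, h1, h2, h3⟩ := path_aux p d
  rw [← h1]
  zify at h3 ⊢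
  nlinarith [sq_nonneg ((A:ℤ) - B)]

/-- far apart large levels -/
lemma G_le_of_large (m : ℕ) (hm : 5 ≤ m) (c : ℕ → ℕ)
    (h1 : (∑ j ∈ range (m + 1), c j) ≤ 4 * c 1)
    (h2 : (∑ j ∈ range (m + 1), c j) ≤ 4 * c (m - 1)) :
    16 * G m c ≤ 3 * (∑ j ∈ range (m + 1), c j) ^ 2 := by
  obtain ⟨p, rfl⟩ : ∃ p, m = p + 3 := ⟨m - 3, by omega⟩
  have hG : G (p + 3) c = c 0 * c 1 + c 1 * c 2 + c 2 * c 3 +
      ∑ j ∈ range p, c (j + 3) * c (j + 3 + 1) := by
    unfold G
    rw [show p + 3 = 3 + p by ring, Finset.sum_range_add]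
    simp only [Finset.sum_range_succ, Finset.sum_range_zero, zero_add]
    congr 1
    apply Finset.sum_congr rfl
    intro j _
    rw [show 3 + j = j + 3 by ring]
  have hS : ∑ j ∈ range (p + 3 + 1), c j = c 0 + c 1 + c 2 + ∑ j ∈ range (p + 1), c (j + 3) := by
    rw [show p + 3 + 1 = 3 + (p + 1) by ring, Finset.sum_range_add]
    simp only [Finset.sum_range_succ, Finset.sum_range_zero, zero_add]
    congr 1
    congr 1
    · apply Finset.sum_congr rfl
      intro j _
      rw [show 3 + j = j + 3 by ring]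
    · rw [show 3 + p = p + 3 by ring]
  have hpath := path_le p (fun j => c (j + 3))
  -- `c 3 ≤ r - c (m - 1)`
  have hr : c 3 + c (p + 2) ≤ ∑ j ∈ range (p + 1), c (j + 3) := by
    obtain ⟨q, rfl⟩ : ∃ q, p = q + 2 := ⟨p - 2, by omega⟩
    rw [Finset.sum_range_succ', Finset.sum_range_succ, Finset.sum_range_succ]
    have : q + 2 + 2 = q + 1 + 3 := by ring
    rw [this]
    simp only [zero_add]
    rw [show q + 1 + 3 = q + 1 + 3 from rfl]
    have e : q + 0 + 1 + 3 = q + 1 + 3 := by ring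
    have h0 : c (q + 1 + 3) ≤ c (q + 1 + 3) + 0 := le_rfl
    have h5 : 0 ≤ ∑ x ∈ range q, c (x + 1 + 3) := Nat.zero_le _
    omega
  rw [show p + 3 - 1 = p + 2 by omega] at h2
  rw [hS] at h1 h2
  rw [hG, hS]
  have hshift : ∑ j ∈ range p, c (j + 3) * c (j + 3 + 1) =
      ∑ j ∈ range p, c (j + 3) * c (j + 1 + 3) := by
    apply Finset.sum_congr rfl
    intro j _
    rw [show j + 3 + 1 = j + 1 + 3 by ring]
  rw [hshift]
  generalize ∑ j ∈ range p, c (j + 3) * c (j + 1 + 3) = X at *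
  generalize ∑ j ∈ range (p + 1), c (j + 3) = r at *
  generalize c 0 = x0 at *
  generalize c 1 = x1 at *
  generalize c 2 = x2 at *
  generalize c 3 = x3 at *
  generalize c (p + 2) = y at *
  zify at *
  -- l = x0 + x1 + x2
  have hl1 : 4 * ((x0:ℤ) * x1 + x1 * x2) ≤ (x0 + x1 + x2) ^ 2 := by
    nlinarith [sq_nonneg ((x1:ℤ) - x0 - x2)]
  have hx2 : (x2:ℤ) ≤ (x0 + x1 + x2) - x1 := by
    have : (0:ℤ) ≤ x0 := by positivity
    linarith
  have h3 : (0:ℤ) ≤ x2 := by positivity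
  have h4 : (0:ℤ) ≤ x3 := by positivity
  have h5 : (x3:ℤ) ≤ r - y := by linarith
  have h6 : (x2:ℤ) * x3 ≤ ((x0 + x1 + x2) - x1) * (r - y) := by
    apply mul_le_mul hx2 h5 h4 (by linarith)
  have h7 : 16 * (((x0:ℤ) + x1 + x2) - x1) * (r - y) ≤
      (4 * (x0 + x1 + x2) - (x0 + x1 + x2 + r)) * (4 * r - (x0 + x1 + x2 + r)) := by
    have e1 : 4 * (((x0:ℤ) + x1 + x2) - x1) ≤ 4 * (x0 + x1 + x2) - (x0 + x1 + x2 + r) := by
      linarith
    have e2 : 4 * ((r:ℤ) - y) ≤ 4 * r - (x0 + x1 + x2 + r) := by linarith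
    have e3 : 0 ≤ 4 * ((r:ℤ) - y) := by linarith
    have e4 : 0 ≤ 4 * (((x0:ℤ) + x1 + x2) - x1) := by linarith
    nlinarith [mul_le_mul e1 e2 e3 (by linarith)]
  nlinarith [sq_nonneg ((x0:ℤ) + x1 + x2 - r)]

end MP_ac85ec_co.Hi
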