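import Pool.Agent.Work.MP_ac85ec_co.HiLower

/-!
# Five or more levels: two sided bounds
-/

namespace MP_ac85ec_co.Hi

open Finset

theorem lower (m n : ℕ) (hm : 4 ≤ m) (hn : 3 * m + 40 ≤ n) :
    (2:ℝ) ^ ((n : ℝ) ^ 2 / 4 + (6 - (m:ℝ)) / 2 * n) ≤
      2 ^ (m + 9) * ((n : ℝ) + 1) ^ 3 * a (m + 1) n := by
  obtain ⟨T, hT⟩ : ∃ T, T + m = n + 3 := ⟨n + 3 - m, by omega⟩
  obtain ⟨s, hs⟩ : ∃ s, s = T / 2 := ⟨_, rfl⟩
  obtain ⟨x, hx⟩ : ∃ x, x = s / 2 := ⟨_, rfl⟩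
  obtain ⟨y, hy⟩ : ∃ y, x + y = s := ⟨s - x, by omega⟩
  obtain ⟨M, hM⟩ : ∃ M, s + M + 1 = T := ⟨T - s - 1, by omega⟩
  set h := Nat.clog 2 (2 * n) with hh
  have h2n : 2 * n ≤ 2 ^ h := Nat.le_pow_clog (by norm_num) _
  have hpred : 2 ^ (h - 1) < 2 * n := Nat.pow_pred_clog_lt_self (by norm_num) (by omega)
  have hx7 : 7 ≤ x := by omega
  have h2x : 2 * n ≤ 2 ^ x := by
    have := two_mul_le_two_pow x hx7
    omega
  have hhx : h ≤ x := Nat.clog_le_of_le_pow h2x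
  have hh1 : 1 ≤ h := by
    by_contra hc
    have : h = 0 := by omega
    rw [this] at h2n
    omega
  have h4n : 2 ^ h ≤ 4 * n := by
    obtain ⟨g, hg⟩ : ∃ g, h = g + 1 := ⟨h - 1, by omega⟩
    rw [hg] at hpred ⊢
    rw [Nat.add_sub_cancel] at hpred
    rw [pow_succ]
    omega
  have main := lower_nat m n h x M y hm h2n (by omega) hhx (by omega) (by omega) (by omega)
    (by omega) (by omega)
  rw [hy] at main
  -- binomials
  have b1 : 2 ^ (T - 1) ≤ T * (s + M).choose s := by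
    have h3 := two_pow_le (T - 1)
    rw [show T - 1 + 1 = T by omega] at h3
    refine h3.trans (Nat.mul_le_mul_left _ ?_)
    rw [show T - 1 = s + M by omega]
    rcases Nat.even_or_odd T with he | ho
    · obtain ⟨r, hr⟩ := he
      have e1 : (s + M) / 2 = M := by omega
      rw [e1, Nat.choose_symm_add]
    · obtain ⟨r, hr⟩ := ho
      have e1 : (s + M) / 2 = s := by omega
      rw [e1]
  have b2 : 2 ^ s ≤ (s + 1) * s.choose x := by
    have h3 := two_pow_le s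
    rw [← hx] at h3
    exact h3
  -- combine
  have hcomb : 2 ^ (T - 1) * 2 ^ s * 2 ^ (s * (M + 1)) ≤
      (n + 1) ^ 3 * (2 ^ (m + 5) * a (m + 1) n) := by
    calc 2 ^ (T - 1) * 2 ^ s * 2 ^ (s * (M + 1))
        ≤ (T * (s + M).choose s) * ((s + 1) * s.choose x) * 2 ^ (s * (M + 1)) := by
          apply Nat.mul_le_mul_right
          exact Nat.mul_le_mul b1 b2
      _ = (T * (s + 1)) * ((s + M).choose s * s.choose x * 2 ^ (s * (M + 1))) := by ring
      _ ≤ (T * (s + 1)) * (2 ^ (h + m + 3) * a (m + 1) n) := Nat.mul_le_mul_left _ main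
      _ = (T * (s + 1)) * (2 ^ h * (2 ^ (m + 3) * a (m + 1) n)) := by
          rw [show h + m + 3 = h + (m + 3) by ring, pow_add 2 h (m + 3)]
          ring
      _ ≤ ((n + 1) * (n + 1)) * ((4 * (n + 1)) * (2 ^ (m + 3) * a (m + 1) n)) := by
          apply Nat.mul_le_mul
          · apply Nat.mul_le_mul
            · omega
            · omega
          · apply Nat.mul_le_mul_right
            omega
      _ = _ := by
          rw [show m + 5 = m + 3 + 2 by ring, pow_add 2 (m + 3) 2]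
          ring
  have hcombR : (2:ℝ) ^ (T - 1) * 2 ^ s * 2 ^ (s * (M + 1)) ≤
      ((n:ℝ) + 1) ^ 3 * (2 ^ (m + 5) * a (m + 1) n) := by exact_mod_cast hcomb
  have hTR : (T:ℝ) = n + 3 - m := by
    have : (T:ℝ) + m = n + 3 := by exact_mod_cast hT
    linarith
  have hMR : (M:ℝ) + 1 = T - s := by
    have : (s:ℝ) + M + 1 = T := by exact_mod_cast hM
    linarith
  have hs1 : (T:ℝ) ≤ 2 * s + 1 := by
    have : T ≤ 2 * s + 1 := by omega
    exact_mod_cast this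
  have hs2 : 2 * (s:ℝ) ≤ T := by
    have : 2 * s ≤ T := by omega
    exact_mod_cast this
  have hexp : (2:ℝ) ^ ((n : ℝ) ^ 2 / 4 + (6 - (m:ℝ)) / 2 * n) ≤
      2 ^ 4 * ((2:ℝ) ^ (T - 1) * 2 ^ s * 2 ^ (s * (M + 1))) := by
    have e1 : (2:ℝ) ^ 4 * ((2:ℝ) ^ (T - 1) * 2 ^ s * 2 ^ (s * (M + 1))) =
        (2:ℝ) ^ ((4:ℝ) + ((T:ℝ) - 1) + s + s * (T - s)) := by
      rw [← pow_add, ← pow_add, ← pow_add, ← Real.rpow_natCast]
      congr 1
      rw [← hMR]
      push_cast [Nat.cast_sub (show 1 ≤ T by omega)]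
      ring
    rw [e1]
    apply Real.rpow_le_rpow_of_exponent_le (by norm_num)
    have hn' : (n:ℝ) = T + m - 3 := by linarith
    have k1 : (s:ℝ) * (T - s) ≥ T ^ 2 / 4 - 1 / 4 := by nlinarith
    have k2 : (s:ℝ) ≥ (T - 1) / 2 := by linarith
    have k3 : (n : ℝ) ^ 2 / 4 + (6 - (m:ℝ)) / 2 * n =
        (T:ℝ) ^ 2 / 4 + 3 / 2 * T - ((m:ℝ) - 3) ^ 2 / 4 + 3 / 2 * ((m:ℝ) - 3) := by
      rw [hn']; ring
    have k4 : -((m:ℝ) - 3) ^ 2 / 4 + 3 / 2 * ((m:ℝ) - 3) ≤ 9 / 4 := by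
      nlinarith [sq_nonneg ((m:ℝ) - 6)]
    rw [k3]
    linarith
  calc (2:ℝ) ^ ((n : ℝ) ^ 2 / 4 + (6 - (m:ℝ)) / 2 * n)
      ≤ 2 ^ 4 * ((2:ℝ) ^ (T - 1) * 2 ^ s * 2 ^ (s * (M + 1))) := hexp
    _ ≤ 2 ^ 4 * (((n:ℝ) + 1) ^ 3 * (2 ^ (m + 5) * a (m + 1) n)) :=
        mul_le_mul_of_nonneg_left hcombR (by norm_num)
    _ = _ := by
        rw [show m + 9 = m + 5 + 4 by ring, pow_add 2 (m + 5) 4]
        ring

/-- the two sided bound -/
theorem two_sided_hi (m : ℕ) (hm : 4 ≤ m) : ∃ A : ℝ, ∀ n : ℕ, 3 * m + 40 ≤ n →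
    |Real.logb 2 (a (m + 1) n) - ((n:ℝ) ^ 2 / 4 + (6 - (m:ℝ)) / 2 * n)| ≤ A * Real.log n := by
  obtain ⟨K, C, hK, hup⟩ := upper m hm
  refine ⟨(|Real.logb 2 K| + (m + 9) + 2 * (C + 3) / Real.log 2) , ?_⟩
  intro n hn
  have hnR : (40:ℝ) ≤ n := by
    have : 40 ≤ n := by omega
    exact_mod_cast this
  have hlow := lower m n hm hn
  have hupn := hup n
  have hapos : (0:ℝ) < a (m + 1) n := by
    by_contra h
    push Not at h
    have h1 : (0:ℝ) < (2:ℝ) ^ ((n : ℝ) ^ 2 / 4 + (6 - (m:ℝ)) / 2 * n) := by positivity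
    have h2 : 2 ^ (m + 9) * ((n : ℝ) + 1) ^ 3 * a (m + 1) n ≤ 0 :=
      mul_nonpos_of_nonneg_of_nonpos (by positivity) h
    linarith
  have hlog2 : 0 < Real.log 2 := Real.log_pos (by norm_num)
  have hlogn1 : 1 ≤ Real.log n := by
    have h1 : Real.exp 1 ≤ n := by
      have := Real.exp_one_lt_d9
      linarith
    calc (1:ℝ) = Real.log (Real.exp 1) := (Real.log_exp 1).symm
      _ ≤ Real.log n := Real.log_le_log (Real.exp_pos 1) h1
  have hlogsucc : Real.logb 2 ((n:ℝ) + 1) ≤ 2 / Real.log 2 * Real.log n := by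
    have h1 : (n:ℝ) + 1 ≤ (n:ℝ) ^ 2 := by nlinarith
    have h2 := Real.log_le_log (by positivity) h1
    rw [Real.log_pow] at h2
    rw [Real.logb, div_mul_eq_mul_div]
    apply div_le_div_of_nonneg_right _ hlog2.le
    exact_mod_cast h2
  have hls0 : 0 ≤ Real.logb 2 ((n:ℝ) + 1) := Real.logb_nonneg (by norm_num) (by linarith)
  have hK0 : 0 ≤ |Real.logb 2 K| := abs_nonneg _
  have hC0 : (0:ℝ) ≤ C := by positivity
  have hm0 : (0:ℝ) ≤ m := by positivity
  -- logs of the two bounds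
  have l1 := Real.logb_le_logb_of_le (b := 2) (by norm_num) (by positivity) hlow
  rw [Real.logb_rpow (by norm_num) (by norm_num), Real.logb_mul (by positivity) hapos.ne',
    Real.logb_mul (by positivity) (by positivity), Real.logb_pow, Real.logb_pow,
    Real.logb_self_eq_one (by norm_num)] at l1
  have l2 := Real.logb_le_logb_of_le (b := 2) (by norm_num) hapos hupn
  rw [Real.logb_mul (by positivity) (by positivity),
    Real.logb_rpow (by norm_num) (by norm_num), Real.logb_mul (by positivity) (by positivity),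
    Real.logb_pow] at l2
  push_cast at l1 l2
  have hfin : |Real.logb 2 K| + (m + 9) + (C + 3) * Real.logb 2 ((n:ℝ) + 1) ≤
      (|Real.logb 2 K| + (m + 9) + 2 * (C + 3) / Real.log 2) * Real.log n := by
    have k1 : |Real.logb 2 K| + (m + 9) ≤ (|Real.logb 2 K| + (m + 9)) * Real.log n := by
      apply le_mul_of_one_le_right (by linarith) hlogn1
    have k2 : (C + 3) * Real.logb 2 ((n:ℝ) + 1) ≤ (C + 3) * (2 / Real.log 2 * Real.log n) :=
      mul_le_mul_of_nonneg_left hlogsucc (by linarith)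
    calc _ ≤ (|Real.logb 2 K| + (m + 9)) * Real.log n +
          (C + 3) * (2 / Real.log 2 * Real.log n) := add_le_add k1 k2
      _ = _ := by ring
  refine le_trans ?_ hfin
  rw [abs_le]
  have hKabs := le_abs_self (Real.logb 2 K)
  have q1 : 0 ≤ (C:ℝ) * Real.logb 2 ((n:ℝ) + 1) := mul_nonneg hC0 hls0
  constructor
  · nlinarith
  · nlinarith

end MP_ac85ec_co.Hi
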