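import Pool.Agent.Work.MP_ac85ec_co.HiUpper

/-!
# Lower bound for five or more levels: the number of admissible cover sets
-/

namespace MP_ac85ec_co.Hi

open Finset

/-- most subsets of `W` containing `S` meet every one of few large sets -/
lemma hit {α ι : Type*} [DecidableEq α] [DecidableEq ι] (W S : Finset α) (R : Finset ι)
    (N : ι → Finset α) (h : ℕ) (hN : ∀ r ∈ R, N r ⊆ W) (hh : ∀ r ∈ R, h ≤ (N r).card)
    (hR : 2 * R.card ≤ 2 ^ h) :
    2 ^ (W \ S).card ≤
      2 * ((W \ S).powerset.filter (fun E => ∀ r ∈ R, ((E ∪ S) ∩ N r).Nonempty)).card := by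
  have h1 : (W \ S).powerset.card ≤
      ((W \ S).powerset.filter (fun E => ∀ r ∈ R, ((E ∪ S) ∩ N r).Nonempty)).card +
      ((W \ S).powerset.filter (fun E => ¬ ∀ r ∈ R, ((E ∪ S) ∩ N r).Nonempty)).card := by
    rw [Finset.card_filter_add_card_filter_not]
  have h2 : (W \ S).powerset.filter (fun E => ¬ ∀ r ∈ R, ((E ∪ S) ∩ N r).Nonempty) ⊆
      (R.filter (fun r => S ∩ N r = ∅)).biUnion (fun r => ((W \ S) \ N r).powerset) := by
    intro E hE
    simp only [mem_filter, mem_powerset] at hE
    obtain ⟨hE1, hE2⟩ := hE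
    push Not at hE2
    obtain ⟨r, hr, hr2⟩ := hE2
    simp only [mem_biUnion, mem_filter, mem_powerset]
    rw [Finset.union_inter_distrib_right, Finset.union_eq_empty] at hr2
    refine ⟨r, ⟨hr, hr2.2⟩, ?_⟩
    intro e he
    rw [Finset.mem_sdiff]
    refine ⟨hE1 he, fun hn => ?_⟩
    have : e ∈ E ∩ N r := Finset.mem_inter.mpr ⟨he, hn⟩
    rw [hr2.1] at this
    exact absurd this (Finset.notMem_empty e)
  have h3 : ((W \ S).powerset.filter (fun E => ¬ ∀ r ∈ R, ((E ∪ S) ∩ N r).Nonempty)).card
      * 2 ^ h ≤ R.card * 2 ^ (W \ S).card := by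
    calc _ ≤ (∑ r ∈ R.filter (fun r => S ∩ N r = ∅), (((W \ S) \ N r).powerset).card) * 2 ^ h := by
            apply Nat.mul_le_mul_right
            exact (Finset.card_le_card h2).trans Finset.card_biUnion_le
      _ = ∑ r ∈ R.filter (fun r => S ∩ N r = ∅), 2 ^ ((W \ S) \ N r).card * 2 ^ h := by
            rw [Finset.sum_mul]
            apply Finset.sum_congr rfl
            intro r _
            rw [Finset.card_powerset]
      _ ≤ ∑ r ∈ R.filter (fun r => S ∩ N r = ∅), 2 ^ (W \ S).card := by
            apply Finset.sum_le_sum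
            intro r hr
            simp only [mem_filter] at hr
            rw [← pow_add]
            apply Nat.pow_le_pow_right (by norm_num)
            have h4 : N r ⊆ W \ S := by
              intro e he
              rw [Finset.mem_sdiff]
              refine ⟨hN r hr.1 he, fun hs => ?_⟩
              have : e ∈ S ∩ N r := Finset.mem_inter.mpr ⟨hs, he⟩
              rw [hr.2] at this
              exact absurd this (Finset.notMem_empty e)
            have h5 := Finset.card_sdiff_add_card_eq_card h4
            have h6 := hh r hr.1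
            omega
      _ ≤ R.card * 2 ^ (W \ S).card := by
            rw [Finset.sum_const, smul_eq_mul]
            apply Nat.mul_le_mul_right
            exact Finset.card_le_card (Finset.filter_subset _ _)
  set B := ((W \ S).powerset.filter (fun E => ¬ ∀ r ∈ R, ((E ∪ S) ∩ N r).Nonempty)).card
  rw [Finset.card_powerset] at h1
  have h6 : 2 * B * 2 ^ h ≤ 2 ^ (W \ S).card * 2 ^ h := by
    calc 2 * B * 2 ^ h = 2 * (B * 2 ^ h) := by ring
      _ ≤ 2 * (R.card * 2 ^ (W \ S).card) := by omega
      _ = (2 * R.card) * 2 ^ (W \ S).card := by ring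
      _ ≤ 2 ^ h * 2 ^ (W \ S).card := Nat.mul_le_mul_right _ hR
      _ = _ := by ring
  have h7 : 2 * B ≤ 2 ^ (W \ S).card := Nat.le_of_mul_le_mul_right h6 (by positivity)
  omega

lemma hit' {α ι : Type*} [DecidableEq α] [DecidableEq ι] (W S : Finset α) (R : Finset ι)
    (N : ι → Finset α) (h : ℕ) (hN : ∀ r ∈ R, N r ⊆ W) (hh : ∀ r ∈ R, h ≤ (N r).card)
    (hR : 2 * R.card ≤ 2 ^ h) (hS : S ⊆ W) :
    ∃ D : Finset (Finset α), (∀ E ∈ D, E ⊆ W ∧ S ⊆ E ∧ ∀ r ∈ R, (E ∩ N r).Nonempty) ∧
      2 ^ W.card ≤ 2 ^ (S.card + 1) * D.card := by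
  have h1 := hit W S R N h hN hh hR
  refine ⟨((W \ S).powerset.filter (fun E => ∀ r ∈ R, ((E ∪ S) ∩ N r).Nonempty)).image
    (fun E => E ∪ S), ?_, ?_⟩
  · intro E hE
    simp only [mem_image, mem_filter, mem_powerset] at hE
    obtain ⟨E', ⟨hE1, hE2⟩, rfl⟩ := hE
    refine ⟨Finset.union_subset (hE1.trans Finset.sdiff_subset) hS, Finset.subset_union_right, hE2⟩
  · rw [Finset.card_image_of_injOn]
    · have h2 := Finset.card_sdiff_add_card_eq_card hS
      calc 2 ^ W.card = 2 ^ S.card * 2 ^ (W \ S).card := by
            rw [← pow_add]; congr 1; omega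
        _ ≤ 2 ^ S.card * (2 * ((W \ S).powerset.filter
            (fun E => ∀ r ∈ R, ((E ∪ S) ∩ N r).Nonempty)).card) := Nat.mul_le_mul_left _ h1
        _ = _ := by ring
    · intro E hE E' hE' heq
      simp only [Finset.coe_filter, Set.mem_ofPred_eq, mem_powerset] at hE hE'
      simp only at heq
      have key : ∀ F : Finset α, F ⊆ W \ S → (F ∪ S) \ S = F := by
        intro F hF
        ext e
        simp only [mem_sdiff, mem_union]
        constructor
        · rintro ⟨h1 | h1, h2⟩
          · exact h1
          · exact absurd h1 h2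
        · intro he
          have := hF he
          rw [Finset.mem_sdiff] at this
          exact ⟨Or.inl he, this.2⟩
      rw [← key E hE.1, ← key E' hE'.1, heq]

lemma per_level (m n h : ℕ) (hm : 4 ≤ m) (hn : 2 * n ≤ 2 ^ h) (L : Fin n → Fin (m + 1))
    (hs : Function.Surjective L)
    (h0 : cnt L 0 = 1) (h1 : h ≤ cnt L 1) (h2 : h ≤ cnt L 2) (h3 : h ≤ cnt L 3)
    (h4 : ∀ j, 4 ≤ j → cnt L j ≤ 1) :
    ∃ D : Finset (Finset (Fin n × Fin n)), (∀ E ∈ D, E ⊆ W L ∧
      ∀ x, ∃ b, SameComponent (gen E) x b ∧ (L b : ℕ) = 0) ∧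
      2 ^ (W L).card ≤ 2 ^ (h + m + 3) * D.card := by
  classical
  obtain ⟨b0, hb0⟩ := hs ⟨0, by omega⟩
  obtain ⟨u0, hu0⟩ := hs ⟨1, by omega⟩
  have hb0' : (L b0 : ℕ) = 0 := by rw [hb0]
  have hu0' : (L u0 : ℕ) = 1 := by rw [hu0]
  obtain ⟨H, hHsub, hHcard⟩ : ∃ H ⊆ ((univ : Finset (Fin n)).filter (fun x => (L x : ℕ) = 2)),
      H.card = h := Finset.exists_subset_card_eq h2
  have hH2 : ∀ v ∈ H, (L v : ℕ) = 2 := by
    intro v hv
    have := hHsub hv
    simpa using this
  set S : Finset (Fin n × Fin n) := (W L).filter (fun pq => 4 ≤ (L pq.1 : ℕ)) ∪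
    (insert (b0, u0) (H.image (fun v => (u0, v)))) with hS
  have hSW : S ⊆ W L := by
    intro pq hpq
    rw [hS] at hpq
    simp only [mem_union, mem_filter, mem_insert, mem_image] at hpq
    rcases hpq with hpq | hpq | ⟨v, hv, hpq⟩
    · exact hpq.1
    · rw [hpq, mem_W]; omega
    · rw [← hpq, mem_W]
      have := hH2 v hv
      omega
  have hScard : S.card ≤ (m + 1) + (1 + h) := by
    rw [hS]
    refine (Finset.card_union_le _ _).trans ?_
    apply Nat.add_le_add
    · have : ((W L).filter (fun pq => 4 ≤ (L pq.1 : ℕ))).card ≤ (range (m + 1)).card := by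
        apply Finset.card_le_card_of_injOn (fun pq => (L pq.1 : ℕ))
        · intro pq _
          simp only [Finset.coe_range, Set.mem_Iio]
          exact (L pq.1).isLt
        · rintro ⟨p, q⟩ hp ⟨p', q'⟩ hp' heq
          simp only [Finset.coe_filter, Set.mem_ofPred_eq, mem_W] at hp hp' heq
          have e1 := h4 (L p : ℕ) hp.2
          have e2 := h4 (L q : ℕ) (by omega)
          unfold cnt at e1 e2
          rw [Finset.card_le_one] at e1 e2
          have f1 := e1 p (by simp) p' (by simp [heq])
          have f2 := e2 q (by simp) q' (by simp; omega)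
          rw [f1, f2]
      simpa using this
    · refine (Finset.card_insert_le _ _).trans ?_
      have : (H.image (fun v => (u0, v))).card ≤ H.card := Finset.card_image_le
      omega
  -- the sets to be hit
  set R : Finset (Fin n) := (univ : Finset (Fin n)).filter
    (fun r => 1 ≤ (L r : ℕ) ∧ (L r : ℕ) ≤ 4) with hR
  set N : Fin n → Finset (Fin n × Fin n) := fun r =>
    if (L r : ℕ) = 1 then H.image (fun v => (r, v)) else (W L).filter (fun pq => pq.2 = r) with hN
  have hNW : ∀ r ∈ R, N r ⊆ W L := by
    intro r hr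
    simp only [hR, mem_filter, mem_univ, true_and] at hr
    simp only [hN]
    split_ifs with hr1
    · intro pq hpq
      simp only [mem_image] at hpq
      obtain ⟨v, hv, rfl⟩ := hpq
      rw [mem_W]
      have := hH2 v hv
      omega
    · exact Finset.filter_subset _ _
  have hNcard : ∀ r ∈ R, h ≤ (N r).card := by
    intro r hr
    simp only [hR, mem_filter, mem_univ, true_and] at hr
    simp only [hN]
    split_ifs with hr1
    · rw [Finset.card_image_of_injective _ (fun v v' hv => by simpa using hv), hHcard]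
    · have e : cnt L ((L r : ℕ) - 1) ≤ ((W L).filter (fun pq => pq.2 = r)).card := by
        unfold cnt
        apply Finset.card_le_card_of_injOn (fun p => (p, r))
        · intro p hp
          simp only [Finset.coe_filter, Set.mem_ofPred_eq, mem_univ, true_and] at hp
          simp only [Finset.coe_filter, Set.mem_ofPred_eq, mem_W, and_true]
          omega
        · intro p _ p' _ hpp
          simpa using hpp
      have hl : (L r : ℕ) = 2 ∨ (L r : ℕ) = 3 ∨ (L r : ℕ) = 4 := by omega
      rcases hl with hl | hl | hl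
      · rw [hl] at e; exact h1.trans e
      · rw [hl] at e; exact h2.trans e
      · rw [hl] at e; exact h3.trans e
  have hRcard : 2 * R.card ≤ 2 ^ h := by
    have : R.card ≤ n := by
      have := Finset.card_le_univ R
      rwa [Fintype.card_fin] at this
    omega
  obtain ⟨D, hD1, hD2⟩ := hit' (W L) S R N h hNW hNcard hRcard hSW
  refine ⟨D, ?_, ?_⟩
  · intro E hE
    obtain ⟨hEW, hSE, hhit⟩ := hD1 E hE
    refine ⟨hEW, ?_⟩
    -- upward steps
    have step : ∀ x y, (x, y) ∈ E → (gen E x y ∨ gen E y x) := fun x y hxy =>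
      Or.inl (Relation.ReflTransGen.single hxy)
    have step' : ∀ x y, (x, y) ∈ E → (gen E y x ∨ gen E x y) := fun x y hxy =>
      Or.inr (Relation.ReflTransGen.single hxy)
    suffices Hs : ∀ l : ℕ, ∀ x, (L x : ℕ) = l → ∃ b, SameComponent (gen E) x b ∧
        (L b : ℕ) = 0 from fun x => Hs _ x rfl
    intro l
    induction l with
    | zero => intro x hx; exact ⟨x, Relation.ReflTransGen.refl, hx⟩
    | succ l ih =>
      intro x hx
      by_cases hl : l = 0
      · -- level one
        subst hl
        have hxR : x ∈ R := by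
          simp only [hR, mem_filter, mem_univ, true_and]
          omega
        obtain ⟨e, he⟩ := hhit x hxR
        rw [Finset.mem_inter] at he
        obtain ⟨he1, he2⟩ := he
        have hx1 : (L x : ℕ) = 1 := by omega
        simp only [hN, if_pos hx1, mem_image] at he2
        obtain ⟨v, hv, rfl⟩ := he2
        have hu0v : (u0, v) ∈ E := hSE (by
          rw [hS]
          simp only [mem_union, mem_insert, mem_image]
          exact Or.inr (Or.inr ⟨v, hv, rfl⟩))
        have hb0u0 : (b0, u0) ∈ E := hSE (by
          rw [hS]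
          simp only [mem_union, mem_insert]
          exact Or.inr (Or.inl trivial))
        refine ⟨b0, ?_, hb0'⟩
        exact Relation.ReflTransGen.head (step x v he1)
          (Relation.ReflTransGen.head (step' u0 v hu0v)
            (Relation.ReflTransGen.single (step' b0 u0 hb0u0)))
      · -- a lower cover
        have hex : ∃ p, (p, x) ∈ E := by
          by_cases hl4 : l + 1 ≤ 4
          · have hxR : x ∈ R := by
              simp only [hR, mem_filter, mem_univ, true_and]
              omega
            obtain ⟨e, he⟩ := hhit x hxR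
            rw [Finset.mem_inter] at he
            obtain ⟨he1, he2⟩ := he
            have hx1 : ¬ (L x : ℕ) = 1 := by omega
            simp only [hN, if_neg hx1, mem_filter] at he2
            obtain ⟨p, q⟩ := e
            simp only at he2
            rw [he2.2] at he1
            exact ⟨p, he1⟩
          · obtain ⟨p, hp⟩ := hs ⟨l, by have := (L x).isLt; omega⟩
            have hp' : (L p : ℕ) = l := by rw [hp]
            refine ⟨p, hSE ?_⟩
            rw [hS]
            simp only [mem_union, mem_filter, mem_W]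
            left
            omega
        obtain ⟨p, hp⟩ := hex
        have hpl := mem_W.mp (hEW hp)
        obtain ⟨b, hb1, hb2⟩ := ih p (by omega)
        exact ⟨b, Relation.ReflTransGen.head (step' p x hp) hb1, hb2⟩
  · refine hD2.trans ?_
    apply Nat.mul_le_mul_right
    apply Nat.pow_le_pow_right (by norm_num)
    omega

end MP_ac85ec_co.Hi
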