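import Pool.Agent.Work.MP_ac85ec_co.HiHit
import Pool.Agent.Work.MP_ac85ec_co.FourLower

/-!
# Lower bound for five or more levels
-/

namespace MP_ac85ec_co.Hi

open Finset

/-- level sizes -/
def sz (x M y : ℕ) (j : ℕ) : ℕ :=
  if j = 0 then 1 else if j = 1 then x else if j = 2 then M else if j = 3 then y else 1

lemma sum_sz (m x M y : ℕ) (hm : 4 ≤ m) :
    ∑ j ∈ range (m + 1), sz x M y j = x + y + M + (m - 2) := by
  obtain ⟨p, rfl⟩ : ∃ p, m = p + 4 := ⟨m - 4, by omega⟩
  rw [show p + 4 + 1 = 4 + (p + 1) by ring, Finset.sum_range_add]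
  have : ∑ j ∈ range (p + 1), sz x M y (4 + j) = p + 1 := by
    rw [Finset.sum_congr rfl (g := fun _ => 1)]
    · simp
    · intro j _
      unfold sz
      rw [if_neg (by omega), if_neg (by omega), if_neg (by omega), if_neg (by omega)]
  rw [this]
  simp only [Finset.sum_range_succ, Finset.sum_range_zero, sz]
  norm_num
  omega

lemma prod_sz (m x M y : ℕ) (hm : 4 ≤ m) :
    ∏ j ∈ range (m + 1), (sz x M y j).factorial = x.factorial * M.factorial * y.factorial := by
  obtain ⟨p, rfl⟩ : ∃ p, m = p + 4 := ⟨m - 4, by omega⟩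
  rw [show p + 4 + 1 = 4 + (p + 1) by ring, Finset.prod_range_add]
  have : ∏ j ∈ range (p + 1), (sz x M y (4 + j)).factorial = 1 := by
    apply Finset.prod_eq_one
    intro j _
    unfold sz
    rw [if_neg (by omega), if_neg (by omega), if_neg (by omega), if_neg (by omega)]
    rfl
  rw [this]
  simp only [Finset.prod_range_succ, Finset.prod_range_zero, sz]
  norm_num

lemma G_sz (m x M y : ℕ) (hm : 4 ≤ m) (c : ℕ → ℕ) (hc : ∀ j, j ≤ m → c j = sz x M y j) :
    (x + y) * (M + 1) ≤ G m c := by
  obtain ⟨p, rfl⟩ : ∃ p, m = p + 4 := ⟨m - 4, by omega⟩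
  unfold G
  rw [show p + 4 = 4 + p by ring, Finset.sum_range_add]
  have h0 := hc 0 (by omega)
  have h1 := hc 1 (by omega)
  have h2 := hc 2 (by omega)
  have h3 := hc 3 (by omega)
  have h4 := hc 4 (by omega)
  simp only [sz] at h0 h1 h2 h3 h4
  norm_num at h0 h1 h2 h3 h4
  simp only [Finset.sum_range_succ, Finset.sum_range_zero, zero_add]
  rw [h0, h1, h2, h3, show (3 + 1) = 4 by norm_num, h4]
  have e : (x + y) * (M + 1) = 1 * x + x * M + M * y + y * 1 := by ring
  rw [e]
  exact Nat.le_add_right _ _

/-- the lower bound from one vector of level sizes -/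
theorem lower_nat (m n h x M y : ℕ) (hm : 4 ≤ m) (hn : 2 * n ≤ 2 ^ h)
    (hsum : x + y + M + (m - 2) = n) (hx : h ≤ x) (hM : h ≤ M) (hy : h ≤ y)
    (hx1 : 1 ≤ x) (hM1 : 1 ≤ M) (hy1 : 1 ≤ y) :
    (x + y + M).choose (x + y) * (x + y).choose x * 2 ^ ((x + y) * (M + 1)) ≤
      2 ^ (h + m + 3) * a (m + 1) n := by
  classical
  set v : Fin (m + 1) → ℕ := fun j => sz x M y j with hv
  have hvs : ∑ j, v j = n := by
    have := Fin.sum_univ_eq_sum_range (fun i => sz x M y i) (m + 1)
    rw [sum_sz m x M y hm, hsum] at this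
    exact this
  -- facts for each level function
  have hfacts : ∀ L : Fin n → Fin (m + 1), (∀ j : Fin (m + 1), cnt L j = v j) →
      Function.Surjective L ∧ (x + y) * (M + 1) ≤ (W L).card ∧
      ∃ D : Finset (Finset (Fin n × Fin n)), (∀ E ∈ D, E ⊆ W L ∧
        ∀ x, ∃ b, SameComponent (gen E) x b ∧ (L b : ℕ) = 0) ∧
        2 ^ (W L).card ≤ 2 ^ (h + m + 3) * D.card := by
    intro L hL
    have hc : ∀ j, j ≤ m → cnt L j = sz x M y j := by
      intro j hj
      exact hL ⟨j, by omega⟩
    have hsurj : Function.Surjective L := by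
      apply surjective_of_cnt
      intro j hj
      rw [hc j (by omega)]
      unfold sz
      split_ifs <;> omega
    refine ⟨hsurj, ?_, ?_⟩
    · rw [card_W_G]
      exact G_sz m x M y hm _ hc
    · apply per_level m n h hm hn L hsurj
      · rw [hc 0 (by omega)]; simp [sz]
      · rw [hc 1 (by omega)]; simpa [sz] using hx
      · rw [hc 2 (by omega)]; simpa [sz] using hM
      · rw [hc 3 (by omega)]; simpa [sz] using hy
      · intro j hj
        rcases Nat.lt_or_ge m j with hmj | hmj
        · rw [cnt_eq_zero L (by omega)]; omega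
        · rw [hc j hmj]
          unfold sz
          rw [if_neg (by omega), if_neg (by omega), if_neg (by omega), if_neg (by omega)]
  choose hsurj hW D hD1 hD2 using hfacts
  let Dt : (Fin n → Fin (m + 1)) → Finset (Finset (Fin n × Fin n)) := fun L =>
    if hL : ∀ j : Fin (m + 1), cnt L j = v j then D L hL else ∅
  have h1 := card_le_a (k := m + 1) (n := n)
    (((univ : Finset (Fin n → Fin (m + 1))).filter (fun L => ∀ j : Fin (m + 1), cnt L j = v j)).sigma
      Dt) (by
        rintro ⟨L, E⟩ hc
        simp only [mem_sigma, mem_filter, mem_univ, true_and] at hc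
        obtain ⟨hL, hE⟩ := hc
        simp only [Dt, dif_pos hL] at hE
        exact ⟨hsurj L hL, (hD1 L hL E hE).1, (hD1 L hL E hE).2⟩)
  rw [Finset.card_sigma] at h1
  have h2 : Nat.multinomial univ v * 2 ^ ((x + y) * (M + 1)) ≤ 2 ^ (h + m + 3) * a (m + 1) n := by
    calc Nat.multinomial univ v * 2 ^ ((x + y) * (M + 1))
        = ∑ L ∈ ((univ : Finset (Fin n → Fin (m + 1))).filter
            (fun L => ∀ j : Fin (m + 1), cnt L j = v j)), 2 ^ ((x + y) * (M + 1)) := by
          rw [Finset.sum_const, smul_eq_mul, card_levels v hvs]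
      _ ≤ ∑ L ∈ ((univ : Finset (Fin n → Fin (m + 1))).filter
            (fun L => ∀ j : Fin (m + 1), cnt L j = v j)), 2 ^ (h + m + 3) * (Dt L).card := by
          apply Finset.sum_le_sum
          intro L hL
          simp only [mem_filter, mem_univ, true_and] at hL
          simp only [Dt, dif_pos hL]
          exact (Nat.pow_le_pow_right (by norm_num) (hW L hL)).trans (hD2 L hL)
      _ = 2 ^ (h + m + 3) * ∑ L ∈ ((univ : Finset (Fin n → Fin (m + 1))).filter
            (fun L => ∀ j : Fin (m + 1), cnt L j = v j)), (Dt L).card := by rw [Finset.mul_sum]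
      _ ≤ _ := Nat.mul_le_mul_left _ h1
  refine le_trans (Nat.mul_le_mul_right _ ?_) h2
  -- the multinomial coefficient
  have e1 := Nat.multinomial_spec (univ : Finset (Fin (m + 1))) v
  rw [hvs] at e1
  have e2 : ∏ j, (v j).factorial = x.factorial * M.factorial * y.factorial := by
    have := Fin.prod_univ_eq_prod_range (fun i => (sz x M y i).factorial) (m + 1)
    rw [prod_sz m x M y hm] at this
    exact this
  rw [e2] at e1
  have e3 := Nat.choose_mul_factorial_mul_factorial (show x + y ≤ x + y + M by omega)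
  have e4 := Nat.choose_mul_factorial_mul_factorial (show x ≤ x + y by omega)
  rw [show x + y + M - (x + y) = M by omega] at e3
  rw [show x + y - x = y by omega] at e4
  have e5 : (x + y + M).factorial ≤ n.factorial := Nat.factorial_le (by omega)
  rw [← e3, ← e4, ← e1] at e5
  have hp : 0 < x.factorial * M.factorial * y.factorial := by positivity
  apply Nat.le_of_mul_le_mul_left _ hp
  calc x.factorial * M.factorial * y.factorial * ((x + y + M).choose (x + y) * (x + y).choose x)
      = (x + y + M).choose (x + y) * ((x + y).choose x * x.factorial * y.factorial) *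
        M.factorial := by ring
    _ ≤ _ := e5

end MP_ac85ec_co.Hi
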