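import Pool.Agent.Work.MP_ac85ec_co.HiBasic

/-!
# The induction step of the upper bound
-/

namespace MP_ac85ec_co.Hi

open Finset

/-- number of elements -/
def S (m : ℕ) (c : ℕ → ℕ) : ℕ := ∑ j ∈ range (m + 1), c j

lemma two_add (a b : ℝ) : (2:ℝ) ^ (a + b) = 2 ^ a * 2 ^ b := Real.rpow_add (by norm_num) a b

lemma two_add3 (a b c : ℝ) : (2:ℝ) ^ (a + b + c) = 2 ^ a * 2 ^ b * 2 ^ c := by
  rw [two_add, two_add]

lemma nat_le_two_rpow (N : ℕ) : (N : ℝ) ≤ (2:ℝ) ^ ((N:ℝ) / 64 + 7) := by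
  have h1 : (N:ℝ) / 128 ≤ Real.exp ((N:ℝ) / 128) := by
    have := Real.add_one_le_exp ((N:ℝ) / 128)
    linarith
  have h2 : Real.exp ((N:ℝ) / 128) ≤ (2:ℝ) ^ ((N:ℝ) / 64) := by
    have e1 : Real.exp ((N:ℝ) / 128) = (Real.exp 1) ^ ((N:ℝ) / 128) := by
      rw [← Real.exp_mul, one_mul]
    have e2 : (2:ℝ) ^ ((N:ℝ) / 64) = (4:ℝ) ^ ((N:ℝ) / 128) := by
      rw [show (4:ℝ) = (2:ℝ) ^ (2:ℝ) by norm_num, ← Real.rpow_mul (by norm_num)]
      congr 1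
      ring
    rw [e1, e2]
    apply Real.rpow_le_rpow (Real.exp_pos 1).le _ (by positivity)
    have := Real.exp_one_lt_d9
    linarith
  have h3 : (2:ℝ) ^ ((N:ℝ) / 64 + 7) = (2:ℝ) ^ ((N:ℝ) / 64) * 128 := by
    rw [Real.rpow_add (by norm_num)]
    norm_num
  rw [h3]
  linarith

lemma exp_bound (N t u m : ℝ) (hm : 0 ≤ m) (ht : 2 ≤ t) (htN : t ≤ N) (hu0 : u ≤ N - t)
    (hu : 4 * u ≤ N) :
    t * (N / 64 + 7) + ((t - 1) * u + t) + ((N - t) ^ 2 / 4 + (6 - m) / 2 * (N - t)) ≤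
      N ^ 2 / 4 + (5 - m) / 2 * N + 64 * (m / 2 + 8) ^ 2 := by
  have key : -(t - 1) * (N / 2 - u) + t ^ 2 / 4 + t * N / 32 - t / 3 ≤ 0 := by
    rcases le_or_gt t (3 * N / 4) with h | h
    · have h1 : -(t - 1) * (N / 2 - u) ≤ -(t - 1) * (N / 4) := by nlinarith
      have h2 : t * (t - 1) ≤ 3 * N / 4 * (t - 1) := by nlinarith
      nlinarith
    · have h1 : -(t - 1) * (N / 2 - u) ≤ -(t - 1) * (t - N / 2) := by nlinarith
      have h2 : t / 3 ≤ t - N / 2 := by linarith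
      have h3 : (t - 1) * (t / 3) ≤ (t - 1) * (t - N / 2) := by nlinarith
      nlinarith [mul_le_mul_of_nonneg_left h.le (by linarith : (0:ℝ) ≤ t)]
  have h2 : t * (m / 2 + 8 - N / 64) ≤ 64 * (m / 2 + 8) ^ 2 := by
    rcases le_or_gt (64 * (m / 2 + 8)) N with h | h
    · have : t * (m / 2 + 8 - N / 64) ≤ 0 := by nlinarith
      nlinarith [sq_nonneg (m / 2 + 8)]
    · have h3 : t ≤ 64 * (m / 2 + 8) := by linarith
      have h4 : m / 2 + 8 - N / 64 ≤ m / 2 + 8 := by linarith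
      have h5 : 0 ≤ m / 2 + 8 - N / 64 := by linarith
      nlinarith [mul_le_mul h3 h4 h5 (by linarith)]
  nlinarith

lemma F_succ (m : ℕ) (c : ℕ → ℕ) (ht : 1 ≤ c (m + 1)) :
    F (m + 1) c = ((S m c + c (m + 1)).choose (c (m + 1)) : ℝ) *
      2 ^ ((c (m + 1) - 1) * c m + c (m + 1)) * F m c := by
  unfold F
  rw [mult_succ (m + 1)]
  have hG : G (m + 1) c = G m c + c m * c (m + 1) := by
    unfold G; rw [Finset.sum_range_succ]
  rw [hG]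
  obtain ⟨t, hT⟩ : ∃ t, c (m + 1) = t + 1 := ⟨c (m + 1) - 1, by omega⟩
  rw [hT, show t + 1 - 1 = t by omega]
  have e : (2:ℝ) ^ (G m c + c m * (t + 1)) * 2 ^ (c 0 + (t + 1)) =
      2 ^ (t * c m + (t + 1)) * (2 ^ (G m c) * 2 ^ (c 0 + c m)) := by
    rw [← pow_add, ← pow_add, ← pow_add]
    congr 1
    ring
  show ((∑ j ∈ range (m + 1), c j + (t + 1)).choose (t + 1) : ℝ) * mult (m + 1) c *
    2 ^ (G m c + c m * (t + 1)) * 2 ^ (c 0 + (t + 1)) = _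
  rw [mul_assoc, e]
  unfold S
  ring

/-- the bound to be proved by induction -/
def Bd (m : ℕ) : Prop := ∃ K : ℝ, ∃ C : ℕ, 0 < K ∧ ∀ c : ℕ → ℕ, (∀ j, j ≤ m → 1 ≤ c j) →
  F m c ≤ K * ((S m c : ℝ) + 1) ^ C * (2:ℝ) ^ ((S m c : ℝ) ^ 2 / 4 + (6 - (m:ℝ)) / 2 * (S m c))

lemma step_one (m : ℕ) (K : ℝ) (C : ℕ) (hK : 0 < K)
    (hB : ∀ c : ℕ → ℕ, (∀ j, j ≤ m → 1 ≤ c j) →
      F m c ≤ K * ((S m c : ℝ) + 1) ^ C *
        (2:ℝ) ^ ((S m c : ℝ) ^ 2 / 4 + (6 - (m:ℝ)) / 2 * (S m c)))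
    (c : ℕ → ℕ) (hc : ∀ j, j ≤ m + 1 → 1 ≤ c j)
    (hcase : c (m + 1) = 1 ∨ 4 * c m ≤ S (m + 1) c) :
    F (m + 1) c ≤ (K * 2 ^ (64 * ((m:ℝ) / 2 + 8) ^ 2)) * ((S (m + 1) c : ℝ) + 1) ^ (C + 1) *
      (2:ℝ) ^ ((S (m + 1) c : ℝ) ^ 2 / 4 + (5 - (m:ℝ)) / 2 * (S (m + 1) c)) := by
  have hb := hB c (fun j hj => hc j (by omega))
  have ht1 := hc (m + 1) le_rfl
  rw [F_succ m c ht1]
  have hS : S (m + 1) c = S m c + c (m + 1) := by
    unfold S; rw [Finset.sum_range_succ]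
  have hum : c m ≤ S m c := by
    unfold S
    exact Finset.single_le_sum (f := c) (fun _ _ => Nat.zero_le _) (by simp)
  set N' := S m c with hN'
  set N := S (m + 1) c with hN
  set t := c (m + 1) with ht
  set u := c m with hu
  have hmR : (0:ℝ) ≤ m := by positivity
  have hNR : (N:ℝ) = N' + t := by exact_mod_cast hS
  have hN'0 : (0:ℝ) ≤ N' := by positivity
  have hpowle : ((N':ℝ) + 1) ^ C ≤ ((N:ℝ) + 1) ^ C := by
    apply pow_le_pow_left₀ (by positivity)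
    have : (0:ℝ) ≤ t := by positivity
    linarith
  have h2c : (1:ℝ) ≤ 2 ^ (64 * ((m:ℝ) / 2 + 8) ^ 2) :=
    Real.one_le_rpow (by norm_num) (by positivity)
  rcases Nat.lt_or_ge t 2 with h2 | h2
  · -- t = 1
    have h1 : t = 1 := by omega
    rw [h1]
    simp only [Nat.sub_self, zero_mul, zero_add, Nat.choose_one_right, pow_one]
    have hN1 : (N:ℝ) = N' + 1 := by rw [hNR, h1]; norm_num
    have hexp : (2:ℝ) * (2:ℝ) ^ ((N' : ℝ) ^ 2 / 4 + (6 - (m:ℝ)) / 2 * N') ≤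
        2 ^ (64 * ((m:ℝ) / 2 + 8) ^ 2) *
        (2:ℝ) ^ ((N : ℝ) ^ 2 / 4 + (5 - (m:ℝ)) / 2 * N) := by
      have e2 : (2:ℝ) = (2:ℝ) ^ (1:ℝ) := by norm_num
      calc (2:ℝ) * (2:ℝ) ^ ((N' : ℝ) ^ 2 / 4 + (6 - (m:ℝ)) / 2 * N')
          = (2:ℝ) ^ (1 + ((N' : ℝ) ^ 2 / 4 + (6 - (m:ℝ)) / 2 * N')) := by
            rw [two_add 1 _, Real.rpow_one]
        _ ≤ (2:ℝ) ^ (64 * ((m:ℝ) / 2 + 8) ^ 2 +
              ((N : ℝ) ^ 2 / 4 + (5 - (m:ℝ)) / 2 * N)) := by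
            apply Real.rpow_le_rpow_of_exponent_le (by norm_num)
            rw [hN1]
            nlinarith
        _ = _ := by rw [Real.rpow_add (by norm_num)]
    have hle : ((N' + 1 : ℕ) : ℝ) * 2 * F m c ≤ ((N:ℝ) + 1) * 2 * (K * ((N:ℝ) + 1) ^ C *
        (2:ℝ) ^ ((N' : ℝ) ^ 2 / 4 + (6 - (m:ℝ)) / 2 * N')) := by
      have hF : F m c ≤ K * ((N:ℝ) + 1) ^ C *
          (2:ℝ) ^ ((N' : ℝ) ^ 2 / 4 + (6 - (m:ℝ)) / 2 * N') := by
        refine hb.trans ?_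
        apply mul_le_mul_of_nonneg_right _ (by positivity)
        exact mul_le_mul_of_nonneg_left hpowle hK.le
      have hF0 : 0 ≤ F m c := by
        unfold F
        have := mult_pos (m + 1) c
        positivity
      apply mul_le_mul _ hF hF0 (by positivity)
      push_cast
      linarith
    refine hle.trans ?_
    calc ((N:ℝ) + 1) * 2 * (K * ((N:ℝ) + 1) ^ C *
        (2:ℝ) ^ ((N' : ℝ) ^ 2 / 4 + (6 - (m:ℝ)) / 2 * N'))
        = K * ((N:ℝ) + 1) ^ (C + 1) *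
          (2 * (2:ℝ) ^ ((N' : ℝ) ^ 2 / 4 + (6 - (m:ℝ)) / 2 * N')) := by ring
      _ ≤ K * ((N:ℝ) + 1) ^ (C + 1) * (2 ^ (64 * ((m:ℝ) / 2 + 8) ^ 2) *
        (2:ℝ) ^ ((N : ℝ) ^ 2 / 4 + (5 - (m:ℝ)) / 2 * N)) := by
          apply mul_le_mul_of_nonneg_left hexp (by positivity)
      _ = _ := by ring
  · have h4u : 4 * u ≤ N := by
      rcases hcase with h | h
      · omega
      · exact h
    have hch : ((N' + t).choose t : ℝ) ≤ (2:ℝ) ^ ((t:ℝ) * ((N:ℝ) / 64 + 7)) := by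
      have h5 : (N' + t).choose t ≤ (N' + t) ^ t := Nat.choose_le_pow _ _
      have h6 : (((N' + t).choose t : ℕ) : ℝ) ≤ (N:ℝ) ^ t := by
        rw [hNR]
        exact_mod_cast h5
      refine h6.trans ?_
      rw [mul_comm, Real.rpow_mul_natCast (by norm_num)]
      exact pow_le_pow_left₀ (by positivity) (nat_le_two_rpow N) t
    have h7 : (2:ℝ) ^ ((t - 1) * u + t) = (2:ℝ) ^ (((t:ℝ) - 1) * u + t) := by
      rw [← Real.rpow_natCast]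
      congr 1
      push_cast [Nat.cast_sub (show 1 ≤ t by omega)]
      ring
    rw [h7]
    have hF : F m c ≤ K * ((N:ℝ) + 1) ^ C *
        (2:ℝ) ^ ((N' : ℝ) ^ 2 / 4 + (6 - (m:ℝ)) / 2 * N') := by
      refine hb.trans ?_
      apply mul_le_mul_of_nonneg_right _ (by positivity)
      exact mul_le_mul_of_nonneg_left hpowle hK.le
    have hF0 : 0 ≤ F m c := by
      unfold F
      have := mult_pos (m + 1) c
      positivity
    have hN'e : (N':ℝ) = N - t := by linarith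
    have htR : (2:ℝ) ≤ t := by exact_mod_cast h2
    have huR : (u:ℝ) ≤ N - t := by
      have : (u:ℝ) ≤ N' := by exact_mod_cast hum
      linarith
    have h4uR : 4 * (u:ℝ) ≤ N := by exact_mod_cast h4u
    have hexp := exp_bound N t u m hmR htR (by linarith) huR h4uR
    calc ((N' + t).choose t : ℝ) * (2:ℝ) ^ (((t:ℝ) - 1) * u + t) * F m c
        ≤ (2:ℝ) ^ ((t:ℝ) * ((N:ℝ) / 64 + 7)) * (2:ℝ) ^ (((t:ℝ) - 1) * u + t) *
          (K * ((N:ℝ) + 1) ^ C *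
            (2:ℝ) ^ ((N' : ℝ) ^ 2 / 4 + (6 - (m:ℝ)) / 2 * N')) := by
          apply mul_le_mul _ hF hF0 (by positivity)
          exact mul_le_mul_of_nonneg_right hch (by positivity)
      _ = K * ((N:ℝ) + 1) ^ C * (2:ℝ) ^ ((t:ℝ) * ((N:ℝ) / 64 + 7) + (((t:ℝ) - 1) * u + t) +
            ((N' : ℝ) ^ 2 / 4 + (6 - (m:ℝ)) / 2 * N')) := by
          rw [two_add3]
          ring
      _ ≤ K * ((N:ℝ) + 1) ^ C * (2:ℝ) ^ ((N:ℝ) ^ 2 / 4 + (5 - (m:ℝ)) / 2 * N +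
            64 * ((m:ℝ) / 2 + 8) ^ 2) := by
          apply mul_le_mul_of_nonneg_left _ (by positivity)
          apply Real.rpow_le_rpow_of_exponent_le (by norm_num)
          rw [hN'e]
          exact hexp
      _ = (K * 2 ^ (64 * ((m:ℝ) / 2 + 8) ^ 2)) * ((N:ℝ) + 1) ^ C *
            (2:ℝ) ^ ((N:ℝ) ^ 2 / 4 + (5 - (m:ℝ)) / 2 * N) := by
          rw [Real.rpow_add (by norm_num)]
          ring
      _ ≤ _ := by
          apply mul_le_mul_of_nonneg_right _ (by positivity)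
          apply mul_le_mul_of_nonneg_left _ (by positivity)
          apply pow_le_pow_right₀ _ (by omega)
          have : (0:ℝ) ≤ N := by positivity
          linarith

lemma step_far (m : ℕ) (hm : 4 ≤ m) (c : ℕ → ℕ)
    (h1 : S (m + 1) c ≤ 4 * c 1) (h2 : S (m + 1) c ≤ 4 * c m) :
    F (m + 1) c ≤ (2:ℝ) ^ (4 * ((3 * (m:ℝ) + 1) / 2) ^ 2) *
      (2:ℝ) ^ ((S (m + 1) c : ℝ) ^ 2 / 4 + (5 - (m:ℝ)) / 2 * (S (m + 1) c)) := by
  have hG := G_le_of_large (m + 1) (by omega) c h1 h2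
  have hM := mult_le (m + 1 + 1) c
  have hsum : c 0 + c (m + 1) ≤ S (m + 1) c := by
    unfold S
    rw [Finset.sum_range_succ]
    have : c 0 ≤ ∑ j ∈ range (m + 1), c j :=
      Finset.single_le_sum (f := c) (fun _ _ => Nat.zero_le _) (by simp)
    omega
  change 16 * G (m + 1) c ≤ 3 * (S (m + 1) c) ^ 2 at hG
  change mult (m + 1 + 1) c ≤ ((m + 1 + 1 : ℕ) : ℝ) ^ (S (m + 1) c) at hM
  set N := S (m + 1) c with hN
  have hGR : (G (m + 1) c : ℝ) ≤ 3 * (N:ℝ) ^ 2 / 16 := by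
    have : (16:ℝ) * G (m + 1) c ≤ 3 * (N:ℝ) ^ 2 := by exact_mod_cast hG
    linarith
  have e1 : (2:ℝ) ^ (G (m + 1) c) ≤ (2:ℝ) ^ (3 * (N:ℝ) ^ 2 / 16) := by
    rw [← Real.rpow_natCast]
    exact Real.rpow_le_rpow_of_exponent_le (by norm_num) hGR
  have e2 : (2:ℝ) ^ (c 0 + c (m + 1)) ≤ (2:ℝ) ^ (N:ℝ) := by
    rw [Real.rpow_natCast]
    exact pow_le_pow_right₀ (by norm_num) hsum
  have e3 : mult (m + 1 + 1) c ≤ (2:ℝ) ^ (((m:ℝ) + 2) * N) := by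
    refine hM.trans ?_
    rw [Real.rpow_mul_natCast (by norm_num)]
    apply pow_le_pow_left₀ (by positivity)
    have h3 : (m + 1 + 1 : ℕ) ≤ 2 ^ (m + 2) := (Nat.lt_two_pow_self).le
    have h4 : (((m + 1 + 1 : ℕ)) : ℝ) ≤ (2:ℝ) ^ (m + 2) := by exact_mod_cast h3
    refine h4.trans (le_of_eq ?_)
    rw [← Real.rpow_natCast]
    congr 1
    push_cast
    ring
  have hm0 := mult_pos (m + 1 + 1) c
  unfold F
  calc mult (m + 1 + 1) c * 2 ^ (G (m + 1) c) * 2 ^ (c 0 + c (m + 1))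
      ≤ (2:ℝ) ^ (((m:ℝ) + 2) * N) * (2:ℝ) ^ (3 * (N:ℝ) ^ 2 / 16) * (2:ℝ) ^ (N:ℝ) := by
        apply mul_le_mul _ e2 (by positivity) (by positivity)
        exact mul_le_mul e3 e1 (by positivity) (by positivity)
    _ = (2:ℝ) ^ (((m:ℝ) + 2) * N + 3 * (N:ℝ) ^ 2 / 16 + N) := by
        rw [two_add3]
    _ ≤ (2:ℝ) ^ (4 * ((3 * (m:ℝ) + 1) / 2) ^ 2 +
          ((N : ℝ) ^ 2 / 4 + (5 - (m:ℝ)) / 2 * N)) := by
        apply Real.rpow_le_rpow_of_exponent_le (by norm_num)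
        nlinarith [sq_nonneg ((N:ℝ) / 4 - 2 * ((3 * (m:ℝ) + 1) / 2))]
    _ = _ := by rw [Real.rpow_add (by norm_num)]

lemma S_rev (m : ℕ) (c : ℕ → ℕ) : S m (fun j => c (m - j)) = S m c := by
  unfold S
  exact sum_rev m c

theorem Bd_succ (m : ℕ) (hm : 4 ≤ m) (h : Bd m) : Bd (m + 1) := by
  obtain ⟨K, C, hK, hB⟩ := h
  refine ⟨K * 2 ^ (64 * ((m:ℝ) / 2 + 8) ^ 2) + (2:ℝ) ^ (4 * ((3 * (m:ℝ) + 1) / 2) ^ 2), C + 1,
    by positivity, ?_⟩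
  intro c hc
  have hcast : (6 - ((m + 1 : ℕ) : ℝ)) / 2 = (5 - (m:ℝ)) / 2 := by push_cast; ring
  rw [hcast]
  have hN0 : (0:ℝ) ≤ (S (m + 1) c : ℝ) := by positivity
  have hone : (1:ℝ) ≤ ((S (m + 1) c : ℝ) + 1) ^ (C + 1) := one_le_pow₀ (by linarith)
  set E := (2:ℝ) ^ ((S (m + 1) c : ℝ) ^ 2 / 4 + (5 - (m:ℝ)) / 2 * (S (m + 1) c)) with hE
  have hE0 : 0 < E := by positivity
  set P := ((S (m + 1) c : ℝ) + 1) ^ (C + 1) with hP
  set K1 := K * (2:ℝ) ^ (64 * ((m:ℝ) / 2 + 8) ^ 2) with hK1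
  set K2 := (2:ℝ) ^ (4 * ((3 * (m:ℝ) + 1) / 2) ^ 2) with hK2
  have hK10 : 0 ≤ K1 := by positivity
  have hK20 : 0 ≤ K2 := by positivity
  have fin1 : K1 * P * E ≤ (K1 + K2) * P * E := by
    have : 0 ≤ K2 * P * E := by positivity
    nlinarith
  have fin2 : K2 * E ≤ (K1 + K2) * P * E := by
    have h1 : K2 * E ≤ K2 * P * E := by
      apply mul_le_mul_of_nonneg_right _ hE0.le
      nlinarith
    have h2 : 0 ≤ K1 * P * E := by positivity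
    nlinarith
  by_cases hA : c (m + 1) = 1 ∨ 4 * c m ≤ S (m + 1) c
  · exact (step_one m K C hK hB c hc hA).trans fin1
  by_cases hA' : c 0 = 1 ∨ 4 * c 1 ≤ S (m + 1) c
  · have h1 := step_one m K C hK hB (fun j => c (m + 1 - j)) (fun j hj => hc _ (by omega)) (by
      simp only [Nat.sub_self, S_rev, Nat.add_sub_cancel_left]
      exact hA')
    rw [F_rev, S_rev] at h1
    exact h1.trans fin1
  · push Not at hA hA'
    exact (step_far m hm c hA'.2.le hA.2.le).trans fin2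

end MP_ac85ec_co.Hi
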