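import Pool.Agent.Work.MP_ac85ec_co.HiBase

/-!
# Upper bound for five or more levels
-/

namespace MP_ac85ec_co.Hi

open Finset

lemma multinomial_eq_mult (m : ℕ) (c : ℕ → ℕ) :
    (Nat.multinomial (univ : Finset (Fin (m + 1))) (fun j => c j) : ℝ) = mult (m + 1) c := by
  have h1 := Nat.multinomial_spec (univ : Finset (Fin (m + 1))) (fun j => c (j : ℕ))
  have h2 : ∏ i : Fin (m + 1), (c (i : ℕ)).factorial = ∏ i ∈ range (m + 1), (c i).factorial :=
    Fin.prod_univ_eq_prod_range (fun i => (c i).factorial) (m + 1)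
  have h3 : ∑ i : Fin (m + 1), c (i : ℕ) = ∑ i ∈ range (m + 1), c i :=
    Fin.sum_univ_eq_sum_range (fun i => c i) (m + 1)
  rw [h2, h3] at h1
  unfold mult
  have hp : 0 < ∏ j ∈ range (m + 1), ((c j).factorial : ℝ) :=
    Finset.prod_pos (fun j _ => by exact_mod_cast (c j).factorial_pos)
  rw [eq_div_iff hp.ne']
  have h4 : ((∏ i ∈ range (m + 1), (c i).factorial : ℕ) : ℝ) *
      (Nat.multinomial (univ : Finset (Fin (m + 1))) (fun j => c (j : ℕ)) : ℝ) =
      (((∑ i ∈ range (m + 1), c i).factorial : ℕ) : ℝ) := by exact_mod_cast h1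
  push_cast at h4 ⊢
  linarith

lemma card_W_G (m n : ℕ) (L : Fin n → Fin (m + 1)) : (W L).card = G m (cnt L) := by
  rw [card_W, Finset.sum_range_succ, cnt_eq_zero L (le_refl (m + 1)), mul_zero, add_zero]
  rfl

theorem upper (m : ℕ) (hm : 4 ≤ m) : ∃ K : ℝ, ∃ C : ℕ, 0 < K ∧ ∀ n : ℕ,
    (a (m + 1) n : ℝ) ≤ K * ((n : ℝ) + 1) ^ C *
      (2:ℝ) ^ ((n : ℝ) ^ 2 / 4 + (6 - (m:ℝ)) / 2 * n) := by
  classical
  obtain ⟨K, C, hK, hB⟩ := Bd_all m hm
  refine ⟨K, C + (m + 1), hK, ?_⟩
  intro n
  set B := K * ((n : ℝ) + 1) ^ C * (2:ℝ) ^ ((n : ℝ) ^ 2 / 4 + (6 - (m:ℝ)) / 2 * n) with hBdef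
  have hB0 : 0 ≤ B := by positivity
  have h1 : (a (m + 1) n : ℝ) ≤
      ∑ L ∈ ((univ : Finset (Fin n → Fin (m + 1))).filter (fun L => Function.Surjective L)),
        (2:ℝ) ^ (W L).card := by
    have := a_le_sum (m + 1) n
    have h2 : (a (m + 1) n : ℝ) ≤ ((∑ L ∈ ((univ : Finset (Fin n → Fin (m + 1))).filter
        (fun L => Function.Surjective L)), 2 ^ (W L).card : ℕ) : ℝ) := by exact_mod_cast this
    push_cast at h2
    exact h2
  have hcl : ∀ (L : Fin n → Fin (m + 1)) (j : ℕ), cnt L j < n + 1 := by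
    intro L j
    unfold cnt
    have := Finset.card_le_univ ((univ : Finset (Fin n)).filter (fun x => (L x : ℕ) = j))
    rw [Fintype.card_fin] at this
    omega
  let g : (Fin n → Fin (m + 1)) → (Fin (m + 1) → Fin (n + 1)) :=
    fun L j => ⟨cnt L j, hcl L j⟩
  rw [← Finset.sum_fiberwise (s := ((univ : Finset (Fin n → Fin (m + 1))).filter
    (fun L => Function.Surjective L))) (g := g)] at h1
  refine h1.trans ?_
  have hinner : ∀ x ∈ (univ : Finset (Fin (m + 1) → Fin (n + 1))),
      ∑ L ∈ ((univ : Finset (Fin n → Fin (m + 1))).filter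
        (fun L => Function.Surjective L)).filter (fun L => g L = x), (2:ℝ) ^ (W L).card ≤ B := by
    intro x _
    rcases (((univ : Finset (Fin n → Fin (m + 1))).filter
        (fun L => Function.Surjective L)).filter (fun L => g L = x)).eq_empty_or_nonempty
      with he | ⟨L0, hL0⟩
    · rw [he, Finset.sum_empty]
      exact hB0
    · simp only [mem_filter, mem_univ, true_and] at hL0
      obtain ⟨hs0, hg0⟩ := hL0
      have hsame : ∀ L : Fin n → Fin (m + 1), g L = x → ∀ j : ℕ, cnt L j = cnt L0 j := by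
        intro L hL j
        rcases Nat.lt_or_ge j (m + 1) with hj | hj
        · have e1 := congrFun (hL.trans hg0.symm) ⟨j, hj⟩
          have e2 := congrArg Fin.val e1
          exact e2
        · rw [cnt_eq_zero L hj, cnt_eq_zero L0 hj]
      have hterm : ∀ L ∈ ((univ : Finset (Fin n → Fin (m + 1))).filter
          (fun L => Function.Surjective L)).filter (fun L => g L = x),
          (2:ℝ) ^ (W L).card = (2:ℝ) ^ (G m (cnt L0)) := by
        intro L hL
        simp only [mem_filter, mem_univ, true_and] at hL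
        rw [card_W_G]
        have : cnt L = cnt L0 := funext (hsame L hL.2)
        rw [this]
      rw [Finset.sum_congr rfl hterm, Finset.sum_const, nsmul_eq_mul]
      have hcard : (((univ : Finset (Fin n → Fin (m + 1))).filter
          (fun L => Function.Surjective L)).filter (fun L => g L = x)).card ≤
          Nat.multinomial (univ : Finset (Fin (m + 1))) (fun j => cnt L0 j) := by
        have hsum : ∑ j : Fin (m + 1), cnt L0 (j : ℕ) = n := by
          rw [Fin.sum_univ_eq_sum_range (fun i => cnt L0 i) (m + 1)]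
          exact sum_cnt L0
        rw [← card_levels (fun j : Fin (m + 1) => cnt L0 j) hsum]
        apply Finset.card_le_card
        intro L hL
        simp only [mem_filter, mem_univ, true_and] at hL ⊢
        intro j
        exact hsame L hL.2 j
      have hcardR : ((((univ : Finset (Fin n → Fin (m + 1))).filter
          (fun L => Function.Surjective L)).filter (fun L => g L = x)).card : ℝ) ≤
          mult (m + 1) (cnt L0) := by
        rw [← multinomial_eq_mult]
        exact_mod_cast hcard
      have hS : S m (cnt L0) = n := sum_cnt L0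
      have hF := hB (cnt L0) (fun j hj => cnt_pos hs0 (by omega))
      rw [hS] at hF
      have hm0 := mult_pos (m + 1) (cnt L0)
      calc _ ≤ mult (m + 1) (cnt L0) * 2 ^ (G m (cnt L0)) :=
            mul_le_mul_of_nonneg_right hcardR (by positivity)
        _ ≤ mult (m + 1) (cnt L0) * 2 ^ (G m (cnt L0)) * 2 ^ (cnt L0 0 + cnt L0 m) :=
            le_mul_of_one_le_right (by positivity) (one_le_pow₀ (by norm_num))
        _ ≤ B := hF
  refine (Finset.sum_le_sum hinner).trans ?_
  rw [Finset.sum_const, Finset.card_univ, Fintype.card_fun, Fintype.card_fin, Fintype.card_fin,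
    nsmul_eq_mul, hBdef]
  push_cast
  rw [pow_add]
  apply le_of_eq
  ring

end MP_ac85ec_co.Hi
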