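import Pool.Agent.Work.MP_ac85ec_co.Cnt

/-!
# The number of level functions with prescribed level sizes
-/

namespace MP_ac85ec_co

open Finset

variable {n k : ℕ}

lemma prod_X_eq (L : Fin n → Fin k) :
    ∏ i, (MvPolynomial.X (L i) : MvPolynomial (Fin k) ℕ) =
      ∏ j : Fin k, (MvPolynomial.X j : MvPolynomial (Fin k) ℕ) ^ cnt L j := by
  classical
  rw [← Finset.prod_fiberwise (s := (univ : Finset (Fin n))) (g := L)]
  apply Finset.prod_congr rfl
  intro j _
  rw [Finset.prod_congr rfl (g := fun _ => (MvPolynomial.X j : MvPolynomial (Fin k) ℕ))]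
  · rw [Finset.prod_const]
    congr 1
    unfold cnt
    congr 1
    ext x
    simp [Fin.ext_iff]
  · intro x hx
    simp only [mem_filter, mem_univ, true_and] at hx
    rw [hx]

theorem card_levels (x : Fin k → ℕ) (hx : ∑ j, x j = n) :
    ((univ : Finset (Fin n → Fin k)).filter (fun L => ∀ j : Fin k, cnt L j = x j)).card =
      Nat.multinomial univ x := by
  classical
  have h1 := MvPolynomial.coeff_sum_X_pow_of_fintype (R := ℕ) (Finsupp.equivFunOnFinite.symm x) n
  have h2 : (Finsupp.equivFunOnFinite.symm x).sum (fun _ m ↦ m) = n := by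
    rw [Finsupp.sum_fintype _ _ (fun _ => rfl)]
    simpa using hx
  rw [if_pos h2, Fintype.sum_pow, MvPolynomial.coeff_sum] at h1
  have h3 : ∀ L : Fin n → Fin k, MvPolynomial.coeff (Finsupp.equivFunOnFinite.symm x)
      (∏ i, (MvPolynomial.X (L i) : MvPolynomial (Fin k) ℕ)) =
      if (∀ j : Fin k, cnt L j = x j) then 1 else 0 := by
    intro L
    rw [prod_X_eq, MvPolynomial.coeff_prod_X_pow]
    have h4 : (Finsupp.equivFunOnFinite.symm x = Finsupp.indicator (univ : Finset (Fin k))
        (fun (i : Fin k) _ => cnt L (i : ℕ))) ↔ (∀ j : Fin k, cnt L j = x j) := by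
      constructor
      · intro h j
        have := DFunLike.congr_fun h j
        simp at this
        exact this.symm
      · intro h
        ext j
        simp [h j]
    by_cases hc : ∀ j : Fin k, cnt L j = x j
    · rw [if_pos hc, if_pos (h4.mpr hc)]
    · rw [if_neg hc, if_neg (fun h => hc (h4.mp h))]
  simp_rw [h3] at h1
  rw [Finset.sum_boole] at h1
  have h5 : (Finsupp.equivFunOnFinite.symm x).multinomial = Nat.multinomial univ x := by
    rw [Finsupp.multinomial_eq_of_support_subset (Finset.subset_univ _)]
    rfl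
  rw [h5] at h1
  exact_mod_cast h1

end MP_ac85ec_co
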